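import Pool.Agent.H31.EK.Main

/-!
# EK Fin: the theorem

`eq5`: `eq_s` with `m = 4` (the tenth power of the prime polynomial), `η = min (e1/2) (e/2) 1`, `A + 1`, `B + 1` for `X = 2^i ⌊N/8⌋`, `i = 0, .., 6` (they cover `[N/8, 8N]`;
`N/16 ≤ X ≤ 8N`, `log N/2 ≤ log X ≤ 2 log N`; `X^η ≤ 8 N^η`; `H^11 ≥ N^(1+11e)`; `(2^J1 y)^10 ≤ N^4`; `H1 = ⌊N/L^A1⌋`: `X/(log X)^(A1+1) ≤ H1 ≤ X/(log X)^(A1-1)`;
a prime factor of `k` is `> L^B ≥ d`, so `(k, d) = 1`).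
-/

set_option autoImplicit false

namespace Pool.Agent.H31.EK

open Finset
open Pool.Agent.H91.PK (ee)
open Pool.Agent.H53.MID (Fp VKp)
open Pool.Agent.H31.EQ (Gs gam ew WDx)

private theorem Fin_bU (s : Finset ℕ) (t : ℕ → Finset ℕ) (f : ℕ → ℝ) (hf : ∀ x, 0 ≤ f x) :
    ∑ x ∈ s.biUnion t, f x ≤ ∑ i ∈ s, ∑ x ∈ t i, f x := by
  induction s using Finset.induction_on with
  | empty => simp
  | insert a s ha ih =>
    rw [biUnion_insert, sum_insert ha]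
    have h1 := sum_union_inter (s₁ := t a) (s₂ := s.biUnion t) (f := f)
    have h2 : 0 ≤ ∑ x ∈ t a ∩ s.biUnion t, f x := sum_nonneg fun x _ => hf x
    linarith

/-- the sizes for one dyadic range -/
private theorem Fin_siz (e1 e η : ℝ) (he : 0 < e) (hη : 0 < η) (h1 : η ≤ e1 / 2) (h2 : η ≤ e / 2) (h3 : η ≤ 1)
    (N X H P0 P1 : ℕ) (hN : 128 ≤ N) (hNe : (128 : ℝ) ≤ (N : ℝ) ^ (e / 2)) (hNe1 : (8 : ℝ) ≤ (N : ℝ) ^ (e1 / 2))
    (hXN : X ≤ 8 * N) (hX16 : N ≤ 16 * X) (hH : (N : ℝ) ^ (1 / 11 + e) ≤ H) (hHu : (H : ℝ) ≤ (N : ℝ) ^ (1 / 3 : ℝ))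
    (hP0 : (N : ℝ) ^ e1 ≤ P0) (hP1 : (P1 : ℝ) ^ 10 * (N : ℝ) ^ e ≤ N * (H : ℝ) ^ 9) :
    (X : ℝ) ^ η ≤ P0 ∧ P1 ≤ X ∧ (X : ℝ) * (X : ℝ) ^ η ≤ (H : ℝ) ^ (2 * 4 + 3) ∧
      (P1 : ℝ) ^ (2 * 4 + 2) * (X : ℝ) ^ η ≤ X * (H : ℝ) ^ (2 * 4 + 1) ∧ (H : ℝ) ^ 2 ≤ 16 * X := by
  have hNr : (128 : ℝ) ≤ N := by exact_mod_cast hN
  have hN0 : (0 : ℝ) < N := by linarith
  have hN1 : (1 : ℝ) ≤ N := by linarith
  have hXN' : (X : ℝ) ≤ 8 * N := by exact_mod_cast hXN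
  have hX16' : (N : ℝ) ≤ 16 * X := by exact_mod_cast hX16
  have hX0 : (0 : ℝ) < X := by linarith
  have hXη : (X : ℝ) ^ η ≤ 8 * (N : ℝ) ^ η := by
    calc (X : ℝ) ^ η ≤ (8 * N : ℝ) ^ η := Real.rpow_le_rpow hX0.le hXN' hη.le
      _ = 8 ^ η * (N : ℝ) ^ η := Real.mul_rpow (by norm_num) hN0.le
      _ ≤ 8 * (N : ℝ) ^ η := by
        apply mul_le_mul_of_nonneg_right _ (Real.rpow_nonneg hN0.le _)
        calc (8 : ℝ) ^ η ≤ 8 ^ (1 : ℝ) := Real.rpow_le_rpow_of_exponent_le (by norm_num) h3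
          _ = 8 := Real.rpow_one 8
  have hNη : (N : ℝ) ^ η ≤ (N : ℝ) ^ (e / 2) := Real.rpow_le_rpow_of_exponent_le hN1 h2
  have hNη1 : (N : ℝ) ^ η ≤ (N : ℝ) ^ (e1 / 2) := Real.rpow_le_rpow_of_exponent_le hN1 h1
  have hNη0 : 0 < (N : ℝ) ^ η := Real.rpow_pos_of_pos hN0 _
  have hee : (N : ℝ) ^ e = (N : ℝ) ^ (e / 2) * (N : ℝ) ^ (e / 2) := by
    rw [← Real.rpow_add hN0]
    congr 1
    ring
  have hee1 : (N : ℝ) ^ e1 = (N : ℝ) ^ (e1 / 2) * (N : ℝ) ^ (e1 / 2) := by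
    rw [← Real.rpow_add hN0]
    congr 1
    ring
  have h128 : 128 * (N : ℝ) ^ η ≤ (N : ℝ) ^ e := by
    rw [hee]
    exact mul_le_mul hNe hNη hNη0.le (by positivity)
  have hH0 : (0 : ℝ) ≤ H := Nat.cast_nonneg _
  refine ⟨?_, ?_, ?_, ?_, ?_⟩
  · refine hXη.trans (le_trans ?_ hP0)
    rw [hee1]
    exact mul_le_mul hNe1 hNη1 hNη0.le (by positivity)
  · have e1' : (P1 : ℝ) ^ 10 ≤ (X : ℝ) ^ 10 := by
      have a1 : (1 : ℝ) ≤ (N : ℝ) ^ e := Real.one_le_rpow hN1 he.le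
      have a2 : (P1 : ℝ) ^ 10 ≤ (P1 : ℝ) ^ 10 * (N : ℝ) ^ e := le_mul_of_one_le_right (by positivity) a1
      have a3 : (H : ℝ) ^ 9 ≤ (N : ℝ) ^ 3 := by
        calc (H : ℝ) ^ 9 ≤ ((N : ℝ) ^ (1 / 3 : ℝ)) ^ 9 := pow_le_pow_left₀ hH0 hHu 9
          _ = (N : ℝ) ^ 3 := by
            rw [← Real.rpow_natCast, ← Real.rpow_mul hN0.le, ← Real.rpow_natCast]
            norm_num
      have a4 : (P1 : ℝ) ^ 10 ≤ (N : ℝ) ^ 4 := by
        calc (P1 : ℝ) ^ 10 ≤ N * (H : ℝ) ^ 9 := a2.trans hP1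
          _ ≤ N * (N : ℝ) ^ 3 := mul_le_mul_of_nonneg_left a3 hN0.le
          _ = (N : ℝ) ^ 4 := by ring
      have a5 : (N : ℝ) ^ 4 ≤ (N / 16 : ℝ) ^ 10 := by
        have a6 : (16 : ℝ) ^ 10 ≤ (N : ℝ) ^ 6 := by
          calc (16 : ℝ) ^ 10 ≤ 128 ^ 6 := by norm_num
            _ ≤ (N : ℝ) ^ 6 := pow_le_pow_left₀ (by norm_num) hNr 6
        rw [div_pow, le_div_iff₀ (by positivity)]
        calc (N : ℝ) ^ 4 * 16 ^ 10 ≤ (N : ℝ) ^ 4 * (N : ℝ) ^ 6 := mul_le_mul_of_nonneg_left a6 (by positivity)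
          _ = (N : ℝ) ^ 10 := by ring
      have a7 : (N / 16 : ℝ) ^ 10 ≤ (X : ℝ) ^ 10 := pow_le_pow_left₀ (by positivity) (by linarith) 10
      linarith
    have e2 : (P1 : ℝ) ≤ X := le_of_pow_le_pow_left₀ (by norm_num) hX0.le e1'
    exact_mod_cast e2
  · have a1 : (N : ℝ) * (N : ℝ) ^ e ≤ (H : ℝ) ^ (2 * 4 + 3) := by
      calc (N : ℝ) * (N : ℝ) ^ e ≤ (N : ℝ) * (N : ℝ) ^ (11 * e) := by
            apply mul_le_mul_of_nonneg_left _ hN0.le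
            exact Real.rpow_le_rpow_of_exponent_le hN1 (by linarith)
        _ = ((N : ℝ) ^ (1 / 11 + e)) ^ (2 * 4 + 3) := by
            rw [← Real.rpow_natCast, ← Real.rpow_mul hN0.le]
            have : (1 / 11 + e) * ((2 * 4 + 3 : ℕ) : ℝ) = 1 + 11 * e := by
              push_cast
              ring
            rw [this, Real.rpow_add hN0, Real.rpow_one]
        _ ≤ (H : ℝ) ^ (2 * 4 + 3) := pow_le_pow_left₀ (by positivity) hH _
    refine le_trans ?_ a1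
    calc (X : ℝ) * (X : ℝ) ^ η ≤ (8 * N) * (8 * (N : ℝ) ^ η) := mul_le_mul hXN' hXη (by positivity) (by positivity)
      _ = N * (64 * (N : ℝ) ^ η) := by ring
      _ ≤ N * (N : ℝ) ^ e := by
        apply mul_le_mul_of_nonneg_left _ hN0.le
        linarith
  · have a0 : (0 : ℝ) ≤ (P1 : ℝ) ^ 10 := by positivity
    have a1 : 16 * ((P1 : ℝ) ^ 10 * (X : ℝ) ^ η) ≤ (P1 : ℝ) ^ 10 * (N : ℝ) ^ e := by
      calc 16 * ((P1 : ℝ) ^ 10 * (X : ℝ) ^ η) ≤ 16 * ((P1 : ℝ) ^ 10 * (8 * (N : ℝ) ^ η)) := by gcongr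
        _ = (P1 : ℝ) ^ 10 * (128 * (N : ℝ) ^ η) := by ring
        _ ≤ (P1 : ℝ) ^ 10 * (N : ℝ) ^ e := mul_le_mul_of_nonneg_left h128 a0
    have a2 : (N : ℝ) * (H : ℝ) ^ 9 ≤ 16 * (X * (H : ℝ) ^ 9) := by
      have : (N : ℝ) * (H : ℝ) ^ 9 ≤ (16 * X) * (H : ℝ) ^ 9 := mul_le_mul_of_nonneg_right hX16' (by positivity)
      linarith
    show (P1 : ℝ) ^ 10 * (X : ℝ) ^ η ≤ X * (H : ℝ) ^ 9
    linarith
  · calc (H : ℝ) ^ 2 ≤ ((N : ℝ) ^ (1 / 3 : ℝ)) ^ 2 := pow_le_pow_left₀ hH0 hHu 2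
      _ = (N : ℝ) ^ (2 / 3 : ℝ) := by
        rw [← Real.rpow_natCast, ← Real.rpow_mul hN0.le]
        norm_num
      _ ≤ (N : ℝ) ^ (1 : ℝ) := Real.rpow_le_rpow_of_exponent_le hN1 (by norm_num)
      _ = N := Real.rpow_one _
      _ ≤ 16 * X := hX16'

theorem eq5 (hVK : VKp) (e1 e : ℝ) (he1 : 0 < e1) (he : 0 < e) (A B : ℕ) : ∃ A0 : ℕ, ∀ A1 : ℕ, A0 ≤ A1 →
    ∃ N0 : ℕ, ∀ N : ℕ, N0 ≤ N → ∀ (H y J0 J1 : ℕ) (b : ℕ → ℕ → ℝ), (N : ℝ) ^ (1 / 11 + e) ≤ H → (H : ℝ) ≤ (N : ℝ) ^ (1 / 3 : ℝ) →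
      (N : ℝ) ^ e1 ≤ (2 ^ J0 * y : ℕ) → ((2 ^ J1 * y : ℕ) : ℝ) ^ 10 * (N : ℝ) ^ e ≤ N * (H : ℝ) ^ 9 → (∀ j k, |b j k| ≤ 1) →
      (∀ j k, b j k ≠ 0 → ∀ q : ℕ, q.Prime → q ∣ k → Real.log N ^ B < q) →
      WDx N H A B (Gs b y J0 J1) (gam (Gs b y J0 J1) ⌊(N : ℝ) / Real.log N ^ A1⌋₊) := by
  obtain ⟨η, hηd⟩ : ∃ η : ℝ, η = min (min (e1 / 2) (e / 2)) 1 := ⟨_, rfl⟩
  have hη : 0 < η := by
    rw [hηd]
    exact lt_min (lt_min (by linarith) (by linarith)) one_pos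
  have hη1 : η ≤ e1 / 2 := by
    rw [hηd]
    exact (min_le_left _ _).trans (min_le_left _ _)
  have hη2 : η ≤ e / 2 := by
    rw [hηd]
    exact (min_le_left _ _).trans (min_le_right _ _)
  have hη3 : η ≤ 1 := by
    rw [hηd]
    exact min_le_right _ _
  obtain ⟨A0, hA0⟩ := eq_s hVK 4 (by norm_num) η hη (A + 1) (B + 1)
  refine ⟨A0 + 1, fun A1 hA1 => ?_⟩
  obtain ⟨X0, hX0⟩ := hA0 (A1 - 1) (by omega) (A1 + 1)
  obtain ⟨N1, hN1⟩ := Pool.Agent.H80.LV.log_ge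
    (max (max (9 * 2 ^ A1) (16 * 2 ^ (A1 + 1))) (max (56 * 2 ^ (A + 1)) (max (2 ^ (B + 1)) 6)))
  obtain ⟨N2, hN2⟩ := Pool.Agent.H80.LV.pow_ge (e / 2) 128 (by linarith)
  obtain ⟨N3, hN3⟩ := Pool.Agent.H80.LV.pow_ge (e1 / 2) 8 (by linarith)
  obtain ⟨N4, hN4⟩ := Pool.Agent.H80.LV.log_pow_le 1 2 one_pos (by norm_num) A1
  refine ⟨max (max (max N1 N2) (max N3 N4)) (max 128 (8 * X0 + 8)), fun N hN H y J0 J1 b hH hHu hy hyH hb hbq d c hd hdL => ?_⟩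
  simp only [max_le_iff] at hN
  obtain ⟨⟨⟨g1, g2⟩, ⟨g3, g4⟩⟩, ⟨hN128, hNX⟩⟩ := hN
  have hL := hN1 N g1
  have hNe := hN2 N g2
  have hNe1 := hN3 N g3
  have h2L := hN4 N g4
  rw [Real.rpow_one] at h2L
  have hN8 : 8 ≤ N := by omega
  have hL1 : 9 * 2 ^ A1 ≤ Real.log N := (le_max_left _ _).trans ((le_max_left _ _).trans hL)
  have hL2 : 16 * 2 ^ (A1 + 1) ≤ Real.log N := (le_max_right _ _).trans ((le_max_left _ _).trans hL)
  have hL3 : 56 * 2 ^ (A + 1) ≤ Real.log N := (le_max_left _ _).trans ((le_max_right _ _).trans hL)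
  have hL4 : 2 ^ (B + 1) ≤ Real.log N := (le_max_left _ _).trans ((le_max_right _ _).trans ((le_max_right _ _).trans hL))
  have hL5 : 6 ≤ Real.log N := (le_max_right _ _).trans ((le_max_right _ _).trans ((le_max_right _ _).trans hL))
  have hNpos : (0 : ℝ) < N := by exact_mod_cast (by omega : 0 < N)
  have hLpos : 0 < Real.log N := by linarith
  set L : ℝ := Real.log N with hLdef
  set H1 : ℕ := ⌊(N : ℝ) / L ^ A1⌋₊ with hH1
  set M : ℕ := N / 8 with hM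
  have hMX : X0 ≤ M := by omega
  have hM1 : 1 ≤ M := by omega
  have hM16 : N ≤ 16 * M := by omega
  have hM8 : 8 * M ≤ N := by omega
  -- the bound for one dyadic range
  have key : ∀ i ∈ range 7, ∑ x ∈ Ico (2 ^ i * M) (2 * (2 ^ i * M)), ew (Gs b y J0 J1) H H1 d c x ^ 2
      ≤ 8 * N * (H : ℝ) ^ 2 * 2 ^ (A + 1) / L ^ (A + 1) := by
    intro i hi
    rw [mem_range] at hi
    obtain ⟨X, hX⟩ : ∃ X, X = 2 ^ i * M := ⟨_, rfl⟩
    rw [← hX]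
    have hi2 : 2 ^ i ≤ 64 := by
      calc 2 ^ i ≤ 2 ^ 6 := Nat.pow_le_pow_right (by norm_num) (by omega)
        _ = 64 := by norm_num
    have hi1 : 1 ≤ 2 ^ i := Nat.one_le_two_pow
    have hXM : M ≤ X := by rw [hX]; exact Nat.le_mul_of_pos_left M (by omega)
    have hX64 : X ≤ 64 * M := by rw [hX]; exact Nat.mul_le_mul_right M hi2
    have hXN : X ≤ 8 * N := by omega
    have hX16 : N ≤ 16 * X := by omega
    have hXpos : (0 : ℝ) < X := by exact_mod_cast (by omega : 0 < X)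
    have hXN' : (X : ℝ) ≤ 8 * N := by exact_mod_cast hXN
    have hX16' : (N : ℝ) ≤ 16 * X := by exact_mod_cast hX16
    have hlog16 : Real.log 16 ≤ 3 := by
      have h1 : Real.log 16 = 4 * Real.log 2 := by
        rw [show (16 : ℝ) = 2 ^ (4 : ℕ) by norm_num, Real.log_pow]
        norm_num
      have h2 := Real.log_two_lt_d9
      rw [h1]
      linarith
    have hlog8 : Real.log 8 ≤ 3 := by
      refine le_trans (Real.log_le_log (by norm_num) (by norm_num)) hlog16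
    have hlX1 : Real.log X ≤ 2 * L := by
      have h1 : Real.log X ≤ Real.log (8 * N) := Real.log_le_log hXpos hXN'
      rw [Real.log_mul (by norm_num) hNpos.ne'] at h1
      linarith
    have hlX2 : L / 2 ≤ Real.log X := by
      have h1 : Real.log N ≤ Real.log (16 * X) := Real.log_le_log hNpos hX16'
      rw [Real.log_mul (by norm_num) hXpos.ne', ← hLdef] at h1
      linarith
    have hlXpos : 0 < Real.log X := by linarith
    obtain ⟨q1, q2, q3, q4, q5⟩ := Fin_siz e1 e η he hη hη1 hη2 hη3 N X H (2 ^ J0 * y) (2 ^ J1 * y) hN128 hNe hNe1 hXN hX16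
      hH hHu hy hyH
    have hcop : ∀ j k, b j k ≠ 0 → Nat.Coprime k d := by
      intro j k hbk
      refine Nat.Coprime.symm (Nat.coprime_of_dvd' ?_)
      intro q hq hqd hqk
      exfalso
      have h1 := hbq j k hbk q hq hqk
      have h2 : q ≤ d := Nat.le_of_dvd hd hqd
      have h3 : (q : ℝ) ≤ d := by exact_mod_cast h2
      linarith
    have hdX : (d : ℝ) ≤ Real.log X ^ (B + 1) := by
      refine hdL.trans ?_
      have h1 : (L / 2) ^ (B + 1) ≤ Real.log X ^ (B + 1) := pow_le_pow_left₀ (by linarith) hlX2 _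
      refine le_trans ?_ h1
      rw [div_pow, le_div_iff₀ (by positivity), pow_succ L B]
      exact mul_le_mul_of_nonneg_left hL4 (by positivity)
    have hH1a : (H1 : ℝ) ≤ X / Real.log X ^ (A1 - 1) := by
      have h1 : (H1 : ℝ) ≤ N / L ^ A1 := Nat.floor_le (by positivity)
      refine h1.trans ?_
      rw [div_le_div_iff₀ (by positivity) (by positivity)]
      have h2 : Real.log X ^ (A1 - 1) ≤ (2 * L) ^ (A1 - 1) := pow_le_pow_left₀ hlXpos.le hlX1 _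
      have hA1' : A1 = (A1 - 1) + 1 := by omega
      have h3 : L ^ A1 = L ^ (A1 - 1) * L := by
        conv_lhs => rw [hA1']
        rw [pow_succ]
      have h4 : (16 : ℝ) * 2 ^ (A1 - 1) ≤ L := by
        have h5 : (2 : ℝ) ^ A1 = 2 ^ (A1 - 1) * 2 := by
          conv_lhs => rw [hA1']
          rw [pow_succ]
        have h6 : (2 : ℝ) ^ (A1 + 1) = 2 ^ (A1 - 1) * 2 * 2 := by rw [pow_succ, h5]
        have h7 : (0 : ℝ) < 2 ^ (A1 - 1) := by positivity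
        rw [h6] at hL2
        linarith
      have h5 : (N : ℝ) * Real.log X ^ (A1 - 1) ≤ (16 * X) * (2 * L) ^ (A1 - 1) :=
        mul_le_mul hX16' h2 (by positivity) (by positivity)
      refine h5.trans ?_
      rw [h3, mul_pow]
      calc (16 : ℝ) * X * (2 ^ (A1 - 1) * L ^ (A1 - 1)) = (X * L ^ (A1 - 1)) * (16 * 2 ^ (A1 - 1)) := by ring
        _ ≤ (X * L ^ (A1 - 1)) * L := mul_le_mul_of_nonneg_left h4 (by positivity)
        _ = X * (L ^ (A1 - 1) * L) := by ring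
    have hH1b : X / Real.log X ^ (A1 + 1) ≤ (H1 : ℝ) := by
      have h1 : (N : ℝ) / L ^ A1 - 1 ≤ H1 := by
        have := Nat.lt_floor_add_one ((N : ℝ) / L ^ A1)
        rw [← hH1] at this
        linarith
      have h2 : (1 : ℝ) ≤ N / (2 * L ^ A1) := by
        rw [le_div_iff₀ (by positivity)]
        linarith
      have h3 : (N : ℝ) / (2 * L ^ A1) = (N / L ^ A1) / 2 := by
        rw [div_div, mul_comm]
      have h4 : (N : ℝ) / (2 * L ^ A1) ≤ H1 := by rw [h3] at h2 ⊢; linarith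
      refine le_trans ?_ h4
      have h5 : (L / 2) ^ (A1 + 1) ≤ Real.log X ^ (A1 + 1) := pow_le_pow_left₀ (by linarith) hlX2 _
      calc (X : ℝ) / Real.log X ^ (A1 + 1) ≤ (8 * N) / (L / 2) ^ (A1 + 1) :=
            div_le_div₀ (by positivity) hXN' (by positivity) h5
        _ = (N * (8 * 2 ^ (A1 + 1))) / (L ^ A1 * L) := by
            rw [div_pow, pow_succ L A1]
            field_simp
        _ ≤ N / (2 * L ^ A1) := by
            rw [div_le_div_iff₀ (by positivity) (by positivity)]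
            calc (N : ℝ) * (8 * 2 ^ (A1 + 1)) * (2 * L ^ A1) = (N * L ^ A1) * (16 * 2 ^ (A1 + 1)) := by ring
              _ ≤ (N * L ^ A1) * L := mul_le_mul_of_nonneg_left hL2 (by positivity)
              _ = N * (L ^ A1 * L) := by ring
    have h := hX0 X (hMX.trans hXM) y J0 J1 d c H H1 b q1 q2 q3 q4 q5 hd hdX hb hcop hH1a hH1b
    refine h.trans ?_
    have h5 : (L / 2) ^ (A + 1) ≤ Real.log X ^ (A + 1) := pow_le_pow_left₀ (by linarith) hlX2 _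
    calc (X : ℝ) * (H : ℝ) ^ 2 / Real.log X ^ (A + 1) ≤ (8 * N) * (H : ℝ) ^ 2 / (L / 2) ^ (A + 1) :=
          div_le_div₀ (by positivity) (mul_le_mul_of_nonneg_right hXN' (by positivity)) (by positivity) h5
      _ = 8 * N * (H : ℝ) ^ 2 * 2 ^ (A + 1) / L ^ (A + 1) := by
          rw [div_pow]
          field_simp
  -- the union of the dyadic ranges
  have hcov : ∀ x ∈ Icc M (8 * N), ∃ i ∈ range 7, x ∈ Ico (2 ^ i * M) (2 * (2 ^ i * M)) := by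
    intro x hx
    rw [mem_Icc] at hx
    have hx2 : x < 128 * M := by omega
    by_cases h1 : x < 2 * M
    · exact ⟨0, by simp, by rw [mem_Ico]; omega⟩
    by_cases h2 : x < 4 * M
    · exact ⟨1, by simp, by rw [mem_Ico]; omega⟩
    by_cases h3 : x < 8 * M
    · exact ⟨2, by simp, by rw [mem_Ico]; omega⟩
    by_cases h4 : x < 16 * M
    · exact ⟨3, by simp, by rw [mem_Ico]; omega⟩
    by_cases h5 : x < 32 * M
    · exact ⟨4, by simp, by rw [mem_Ico]; omega⟩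
    by_cases h6 : x < 64 * M
    · exact ⟨5, by simp, by rw [mem_Ico]; omega⟩
    · exact ⟨6, by simp, by rw [mem_Ico]; omega⟩
  have hsub : Icc M (8 * N) ⊆ (range 7).biUnion (fun i => Ico (2 ^ i * M) (2 * (2 ^ i * M))) := by
    intro x hx
    rw [mem_biUnion]
    exact hcov x hx
  calc ∑ x ∈ Icc (N / 8) (8 * N), ((∑ n ∈ (Ioc x (x + H)).filter (fun n => n % d = c % d), Gs b y J0 J1 n)
        - (if Nat.Coprime c d then (H : ℝ) * gam (Gs b y J0 J1) H1 x / d.totient else 0)) ^ 2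
      = ∑ x ∈ Icc M (8 * N), ew (Gs b y J0 J1) H H1 d c x ^ 2 := rfl
    _ ≤ ∑ x ∈ (range 7).biUnion (fun i => Ico (2 ^ i * M) (2 * (2 ^ i * M))), ew (Gs b y J0 J1) H H1 d c x ^ 2 :=
        sum_le_sum_of_subset_of_nonneg hsub (fun _ _ _ => sq_nonneg _)
    _ ≤ ∑ i ∈ range 7, ∑ x ∈ Ico (2 ^ i * M) (2 * (2 ^ i * M)), ew (Gs b y J0 J1) H H1 d c x ^ 2 := by
        exact Fin_bU _ _ _ (fun _ => sq_nonneg _)
    _ ≤ ∑ i ∈ range 7, 8 * N * (H : ℝ) ^ 2 * 2 ^ (A + 1) / L ^ (A + 1) := sum_le_sum key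
    _ = (N * (H : ℝ) ^ 2) * (56 * 2 ^ (A + 1)) / (L ^ A * L) := by
        rw [sum_const, card_range, pow_succ L A, nsmul_eq_mul]
        push_cast
        ring
    _ ≤ N * (H : ℝ) ^ 2 / L ^ A := by
        rw [div_le_div_iff₀ (by positivity) (by positivity)]
        calc (N * (H : ℝ) ^ 2) * (56 * 2 ^ (A + 1)) * L ^ A ≤ (N * (H : ℝ) ^ 2) * L * L ^ A :=
              mul_le_mul_of_nonneg_right (mul_le_mul_of_nonneg_left hL3 (by positivity)) (by positivity)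
          _ = N * (H : ℝ) ^ 2 * (L ^ A * L) := by ring

end Pool.Agent.H31.EK
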