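import Mathlib

/-!
# EK Lev: decomposition into level sets, with the moment `2(m+1)`

`V_j = V0/2^j`, `B_j = {t ∈ R : V_(j+1) < p t ≤ V_j}` (`j < J`), rest `{p t ≤ V_J}`:
`∫_{B_j} p² q ≤ V_j² (Q1 + W Q0/V_(j+1)^(2m+2)) = V_j² Q1 + 4^(m+1) W Q0/V_j^(2m)`;
`∑_j V_j² ≤ 2 V0²`, `∑_{j<J} (4^m)^j ≤ (4^J)^m` (`m ≥ 1`).  Induction on `J` from the top level.
-/

set_option autoImplicit false

namespace Pool.Agent.H31.EK

open MeasureTheory

private theorem Lev_int {f : ℝ → ℝ} (hf : Continuous f) {T : ℝ} {R : Set ℝ} (hRT : R ⊆ Set.Icc (-T) T) :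
    IntegrableOn f R :=
  (hf.continuousOn.integrableOn_compact isCompact_Icc).mono_set hRT

/-- the bound by the maximum -/
private theorem Lev_max (p q : ℝ → ℝ) (hp : Continuous p) (hq : Continuous q) (hp0 : ∀ t, 0 ≤ p t)
    (hq0 : ∀ t, 0 ≤ q t) (T V : ℝ) (B : Set ℝ) (hB : MeasurableSet B) (hBT : B ⊆ Set.Icc (-T) T)
    (hpV : ∀ t ∈ B, p t ≤ V) : ∫ t in B, p t ^ 2 * q t ≤ V ^ 2 * ∫ t in B, q t := by
  rw [← integral_const_mul]
  refine setIntegral_mono_on (Lev_int ((hp.pow 2).mul hq) hBT) (Lev_int (hq.const_mul _) hBT) hB fun t ht => ?_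
  exact mul_le_mul_of_nonneg_right (pow_le_pow_left₀ (hp0 t) (hpV t ht) 2) (hq0 t)

/-- without level sets -/
theorem lev0 (p q : ℝ → ℝ) (hp : Continuous p) (hq : Continuous q) (hp0 : ∀ t, 0 ≤ p t)
    (hq0 : ∀ t, 0 ≤ q t) (T V S : ℝ) (R : Set ℝ) (hR : MeasurableSet R) (hRT : R ⊆ Set.Icc (-T) T)
    (hpV : ∀ t ∈ R, p t ≤ V) (htot : ∫ t in R, q t ≤ S) : ∫ t in R, p t ^ 2 * q t ≤ V ^ 2 * S :=
  (Lev_max p q hp hq hp0 hq0 T V R hR hRT hpV).trans (mul_le_mul_of_nonneg_left htot (by positivity))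

/-- the sharp form, by induction on `J` -/
private theorem Lev_ind (p q : ℝ → ℝ) (hp : Continuous p) (hq : Continuous q) (hp0 : ∀ t, 0 ≤ p t)
    (hq0 : ∀ t, 0 ≤ q t) (m : ℕ) (hm : 1 ≤ m) (T Q0 Q1 W S : ℝ) (hQ0 : 0 ≤ Q0) (hQ1 : 0 ≤ Q1) (hW : 0 ≤ W) :
    ∀ (J : ℕ) (V0 : ℝ) (R : Set ℝ), MeasurableSet R → R ⊆ Set.Icc (-T) T → 0 < V0 → (∀ t ∈ R, p t ≤ V0) →
    (∀ (B : Set ℝ) (V : ℝ), MeasurableSet B → B ⊆ R → 0 < V → (∀ t ∈ B, V ≤ p t) → volume.real B ≤ Q0 / V ^ (2 * (m + 1))) →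
    (∀ B : Set ℝ, MeasurableSet B → B ⊆ R → ∫ t in B, q t ≤ Q1 + W * volume.real B) →
    (∫ t in R, q t ≤ S) →
    ∫ t in R, p t ^ 2 * q t ≤
      2 * V0 ^ 2 * Q1 + 4 ^ (m + 1) * (W * Q0) * ((4 ^ m) ^ J - 1) / V0 ^ (2 * m) + V0 ^ 2 / 4 ^ J * S := by
  intro J
  induction J with
  | zero =>
    intro V0 R hR hRT hV0 hV hvol hdual htot
    have h1 := lev0 p q hp hq hp0 hq0 T V0 S R hR hRT hV htot
    have h3 : 0 ≤ 2 * V0 ^ 2 * Q1 := by positivity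
    rw [pow_zero, sub_self, mul_zero, zero_div, pow_zero, div_one]
    linarith
  | succ J ih =>
    intro V0 R hR hRT hV0 hV hvol hdual htot
    obtain ⟨R', hR'⟩ : ∃ R' : Set ℝ, R' = R ∩ {t | p t ≤ V0 / 2} := ⟨_, rfl⟩
    obtain ⟨B, hBd⟩ : ∃ B : Set ℝ, B = R ∩ {t | V0 / 2 < p t} := ⟨_, rfl⟩
    have hR'm : MeasurableSet R' := by
      rw [hR']
      exact hR.inter (measurableSet_le hp.measurable measurable_const)
    have hBm : MeasurableSet B := by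
      rw [hBd]
      exact hR.inter (measurableSet_lt measurable_const hp.measurable)
    have hR's : R' ⊆ R := by
      rw [hR']
      exact Set.inter_subset_left
    have hBs : B ⊆ R := by
      rw [hBd]
      exact Set.inter_subset_left
    have hdis : Disjoint R' B := by
      rw [Set.disjoint_left]
      intro t h1 h2
      rw [hR'] at h1
      rw [hBd] at h2
      have h3 : p t ≤ V0 / 2 := h1.2
      have h4 : V0 / 2 < p t := h2.2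
      linarith
    have hun : R' ∪ B = R := by
      rw [hR', hBd, ← Set.inter_union_distrib_left]
      have : {t | p t ≤ V0 / 2} ∪ {t | V0 / 2 < p t} = Set.univ := by
        ext t
        simp only [Set.mem_union, Set.mem_ofPred_eq, Set.mem_univ, iff_true]
        exact le_or_gt _ _
      rw [this, Set.inter_univ]
    have hsplit : ∫ t in R, p t ^ 2 * q t = (∫ t in R', p t ^ 2 * q t) + ∫ t in B, p t ^ 2 * q t := by
      rw [← hun]
      exact setIntegral_union hdis hBm (Lev_int ((hp.pow 2).mul hq) (hR's.trans hRT))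
        (Lev_int ((hp.pow 2).mul hq) (hBs.trans hRT))
    have h1 := ih (V0 / 2) R' hR'm (hR's.trans hRT) (by positivity)
      (fun t ht => by rw [hR'] at ht; exact ht.2)
      (fun C V hC hCs hVp hVC => hvol C V hC (hCs.trans hR's) hVp hVC)
      (fun C hC hCs => hdual C hC (hCs.trans hR's))
      (le_trans (setIntegral_mono_set (Lev_int hq hRT) (Filter.Eventually.of_forall hq0)
        (Filter.Eventually.of_forall hR's)) htot)
    have h2 : volume.real B ≤ Q0 / (V0 / 2) ^ (2 * (m + 1)) :=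
      hvol B (V0 / 2) hBm hBs (by positivity) fun t ht => by
        rw [hBd] at ht
        exact (show V0 / 2 < p t from ht.2).le
    have h3 := hdual B hBm hBs
    have h4 := Lev_max p q hp hq hp0 hq0 T V0 B hBm (hBs.trans hRT) fun t ht => hV t (hBs ht)
    have h5 : W * volume.real B ≤ W * (Q0 / (V0 / 2) ^ (2 * (m + 1))) := mul_le_mul_of_nonneg_left h2 hW
    have h6 : ∫ t in B, p t ^ 2 * q t ≤ V0 ^ 2 * (Q1 + W * (Q0 / (V0 / 2) ^ (2 * (m + 1)))) :=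
      h4.trans (mul_le_mul_of_nonneg_left (by linarith) (by positivity))
    have e0 : (V0 / 2) ^ (2 * (m + 1)) = V0 ^ 2 * V0 ^ (2 * m) / 4 ^ (m + 1) := by
      rw [div_pow, show (2 : ℝ) ^ (2 * (m + 1)) = 4 ^ (m + 1) by rw [pow_mul]; norm_num,
        show 2 * (m + 1) = 2 + 2 * m by ring, pow_add]
    have e1 : V0 ^ 2 * (Q1 + W * (Q0 / (V0 / 2) ^ (2 * (m + 1)))) =
        V0 ^ 2 * Q1 + 4 ^ (m + 1) * (W * Q0) / V0 ^ (2 * m) := by
      rw [e0]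
      field_simp
    have e2a : (V0 / 2) ^ (2 * m) = V0 ^ (2 * m) / 4 ^ m := by
      rw [div_pow, show (2 : ℝ) ^ (2 * m) = 4 ^ m by rw [pow_mul]; norm_num]
    have e2 : 2 * (V0 / 2) ^ 2 * Q1 + 4 ^ (m + 1) * (W * Q0) * ((4 ^ m) ^ J - 1) / (V0 / 2) ^ (2 * m) +
        (V0 / 2) ^ 2 / 4 ^ J * S = V0 ^ 2 * Q1 / 2 +
        4 ^ (m + 1) * (W * Q0) * ((4 ^ m) ^ (J + 1) - 4 ^ m) / V0 ^ (2 * m) +
        V0 ^ 2 / 4 ^ (J + 1) * S := by
      rw [e2a, pow_succ (4 : ℝ) J, pow_succ ((4 : ℝ) ^ m) J]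
      have hx : (4 : ℝ) ^ m ≠ 0 := by positivity
      have hy : V0 ^ (2 * m) ≠ 0 := by positivity
      generalize (4 : ℝ) ^ (m + 1) = c0
      generalize (4 : ℝ) ^ m = c at hx
      generalize V0 ^ (2 * m) = v at hy
      field_simp
      ring
    rw [hsplit]
    rw [e1] at h6
    rw [e2] at h1
    have hx1 : (4 : ℝ) ≤ 4 ^ m := by
      calc (4 : ℝ) = 4 ^ 1 := (pow_one _).symm
        _ ≤ 4 ^ m := pow_le_pow_right₀ (by norm_num) hm
    have hWQ : 0 ≤ W * Q0 := mul_nonneg hW hQ0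
    have e3 : 4 ^ (m + 1) * (W * Q0) * ((4 ^ m) ^ (J + 1) - 4 ^ m) / V0 ^ (2 * m) + 4 ^ (m + 1) * (W * Q0) / V0 ^ (2 * m)
        ≤ 4 ^ (m + 1) * (W * Q0) * ((4 ^ m) ^ (J + 1) - 1) / V0 ^ (2 * m) := by
      rw [← add_div]
      apply div_le_div_of_nonneg_right _ (by positivity)
      have h7 : 0 ≤ (4 : ℝ) ^ (m + 1) * (W * Q0) := by positivity
      nlinarith
    have h7 : 0 ≤ V0 ^ 2 * Q1 := by positivity
    linarith

theorem lev (p q : ℝ → ℝ) (hp : Continuous p) (hq : Continuous q) (hp0 : ∀ t, 0 ≤ p t) (hq0 : ∀ t, 0 ≤ q t)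
    (m : ℕ) (hm : 1 ≤ m) (T V0 Q0 Q1 W S : ℝ) (J : ℕ) (R : Set ℝ) (hR : MeasurableSet R)
    (hRT : R ⊆ Set.Icc (-T) T) (hV0 : 0 < V0)
    (hQ0 : 0 ≤ Q0) (hQ1 : 0 ≤ Q1) (hW : 0 ≤ W) (hV : ∀ t ∈ R, p t ≤ V0)
    (hvol : ∀ (B : Set ℝ) (V : ℝ), MeasurableSet B → B ⊆ R → 0 < V → (∀ t ∈ B, V ≤ p t) →
      volume.real B ≤ Q0 / V ^ (2 * (m + 1)))
    (hdual : ∀ B : Set ℝ, MeasurableSet B → B ⊆ R → ∫ t in B, q t ≤ Q1 + W * volume.real B)
    (htot : ∫ t in R, q t ≤ S) :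
    ∫ t in R, p t ^ 2 * q t ≤
      2 * V0 ^ 2 * Q1 + 4 ^ (m + 1) * (W * Q0) * (4 ^ J) ^ m / V0 ^ (2 * m) + V0 ^ 2 / 4 ^ J * S := by
  have h := Lev_ind p q hp hq hp0 hq0 m hm T Q0 Q1 W S hQ0 hQ1 hW J V0 R hR hRT hV0 hV hvol hdual htot
  have h1 : 4 ^ (m + 1) * (W * Q0) * ((4 ^ m) ^ J - 1) / V0 ^ (2 * m) ≤
      4 ^ (m + 1) * (W * Q0) * (4 ^ J) ^ m / V0 ^ (2 * m) := by
    refine div_le_div_of_nonneg_right ?_ (by positivity)
    have h2 : 0 ≤ 4 ^ (m + 1) * (W * Q0) := mul_nonneg (by positivity) (mul_nonneg hW hQ0)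
    refine mul_le_mul_of_nonneg_left ?_ h2
    have h3 : ((4 : ℝ) ^ m) ^ J = (4 ^ J) ^ m := by rw [← pow_mul, ← pow_mul, mul_comm]
    rw [h3]
    linarith
  linarith

end Pool.Agent.H31.EK
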