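import Pool.Agent.H31.EK.ClsD
import Pool.Agent.H31.EQ.LongC

/-!
# EK Main: the windows, one box of primes, then a sum of boxes

As `EQ/Main.lean`.  `eq_x`: `ew (Fp b P) H H1 d c x = H · (D (cf b P d c) H H1 x + (W (cf ..) H1 x/H1 - [(c,d)=1] gam/φ(d)))`; the second term is `≤ (X/L^C)/H1 ≤ L^(A2 - C)`
by `long_c` (`C = A + A2 + 2`); `cls_d` with `A + 2`.  `H ≤ H1`: `H² ≤ 16 X`.
`eq_s`: `ew` is linear in `G`, `|∑_j|² ≤ (J1 - J0) ∑_j |·|²`, `J1 - J0 ≤ 2 L` (`2^J1 y ≤ X`); `eq_x` with `A + 3`, `P = 2^j y`.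
-/

set_option autoImplicit false

namespace Pool.Agent.H31.EK

open Finset MeasureTheory
open Pool.Agent.H91.PK (ee)
open Pool.Agent.H35.W (pb)
open Pool.Agent.H53.MID (Fp VKp)
open Pool.Agent.H88.PSI (D W)
open Pool.Agent.H31.EQ (cf Gs gam ew long_c)

/-- the window sums of `cf` are real -/
private theorem Main_W (b : ℕ → ℝ) (P d c H x : ℕ) :
    W (cf b P d c) H x = ((∑ n ∈ (Ioc x (x + H)).filter (fun n => n % d = c % d), Fp b P n : ℝ) : ℂ) := by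
  unfold W cf
  rw [Finset.sum_filter]
  push_cast
  refine Finset.sum_congr rfl (fun n _ => ?_)
  split_ifs <;> simp

/-- the pointwise bound -/
private theorem Main_pt (b : ℕ → ℝ) (P d c H H1 x : ℕ) (E : ℝ) (hH : 0 < (H : ℝ)) (hH1 : 0 < (H1 : ℝ))
    (hE : |(∑ n ∈ (Ioc x (x + H1)).filter (fun n => n % d = c % d), Fp b P n)
      - (if Nat.Coprime c d then (∑ n ∈ Ioc x (x + H1), Fp b P n) / d.totient else 0)| ≤ E * H1) :
    ew (Fp b P) H H1 d c x ^ 2 ≤ 2 * (H : ℝ) ^ 2 * ‖D (cf b P d c) H H1 x‖ ^ 2 + 2 * (H : ℝ) ^ 2 * E ^ 2 := by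
  set S1 : ℝ := ∑ n ∈ (Ioc x (x + H)).filter (fun n => n % d = c % d), Fp b P n with hS1
  set S2 : ℝ := ∑ n ∈ (Ioc x (x + H1)).filter (fun n => n % d = c % d), Fp b P n with hS2
  set M : ℝ := (if Nat.Coprime c d then (∑ n ∈ Ioc x (x + H1), Fp b P n) / (d.totient : ℝ) else 0) with hM
  have hD : ‖D (cf b P d c) H H1 x‖ = |S1 / H - S2 / H1| := by
    unfold D
    rw [Main_W, Main_W, ← hS1, ← hS2]
    have : ((S1 : ℝ) : ℂ) / (H : ℂ) - ((S2 : ℝ) : ℂ) / (H1 : ℂ) = ((S1 / H - S2 / H1 : ℝ) : ℂ) := by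
      push_cast
      ring
    rw [this, Complex.norm_real, Real.norm_eq_abs]
  have hew : ew (Fp b P) H H1 d c x = H * (S1 / H - S2 / H1) + H * ((S2 - M) / H1) := by
    unfold ew gam
    rw [← hS1, hM]
    have h1 : (H : ℝ) * (S1 / H - S2 / H1) = S1 - H * S2 / H1 := by
      field_simp
    split_ifs with hc
    · rw [h1]
      have h0 : ((d.totient : ℕ) : ℝ) = d.totient := rfl
      ring
    · rw [h1]
      ring
  have h2 : |(S2 - M) / H1| ≤ E := by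
    rw [abs_div, abs_of_pos hH1, div_le_iff₀ hH1]
    exact hE
  have h3 : ((S2 - M) / H1) ^ 2 ≤ E ^ 2 := by
    rw [← sq_abs]
    exact pow_le_pow_left₀ (abs_nonneg _) h2 2
  rw [hew, hD, sq_abs]
  have h4 : (H * (S1 / H - S2 / H1) + H * ((S2 - M) / H1)) ^ 2
      ≤ 2 * (H : ℝ) ^ 2 * (S1 / H - S2 / H1) ^ 2 + 2 * (H : ℝ) ^ 2 * ((S2 - M) / H1) ^ 2 := by
    nlinarith [sq_nonneg (H * (S1 / H - S2 / H1) - H * ((S2 - M) / H1))]
  have h5 : 2 * (H : ℝ) ^ 2 * ((S2 - M) / H1) ^ 2 ≤ 2 * (H : ℝ) ^ 2 * E ^ 2 :=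
    mul_le_mul_of_nonneg_left h3 (by positivity)
  linarith

/-- large `X`: `log X` beats constants, and powers of `X` beat powers of `log X` -/
private theorem Main_big (A : ℕ) : ∃ X0 : ℕ, ∀ X : ℕ, X0 ≤ X → 4 ≤ Real.log X ∧
    4 * (X : ℝ) ^ (1 / 2 : ℝ) ≤ X / Real.log X ^ A ∧ (16 : ℝ) ≤ X := by
  obtain ⟨X1, h1⟩ := Pool.Agent.H80.LV.log_ge 4
  obtain ⟨X2, h2⟩ := Pool.Agent.H80.LV.log_pow_le (1 / 2) 4 (by norm_num) (by norm_num) A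
  refine ⟨max (max X1 X2) 16, fun X hX => ?_⟩
  simp only [max_le_iff] at hX
  obtain ⟨⟨hXa, hXb⟩, hXc⟩ := hX
  have a1 := h1 X hXa
  have a2 := h2 X hXb
  have a3 : (16 : ℝ) ≤ X := by exact_mod_cast hXc
  refine ⟨a1, ?_, a3⟩
  have hX0' : (0 : ℝ) < X := by linarith
  have hl : (0 : ℝ) < Real.log X := by linarith
  rw [le_div_iff₀ (by positivity)]
  calc 4 * (X : ℝ) ^ (1 / 2 : ℝ) * Real.log X ^ A = (X : ℝ) ^ (1 / 2 : ℝ) * (4 * Real.log X ^ A) := by ring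
    _ ≤ (X : ℝ) ^ (1 / 2 : ℝ) * (X : ℝ) ^ (1 / 2 : ℝ) := mul_le_mul_of_nonneg_left a2 (by positivity)
    _ = X := by
        rw [← Real.rpow_add hX0']
        norm_num

/-- the size of `H` -/
private theorem Main_size (m : ℕ) (η : ℝ) (hη : 0 < η) (X P H : ℕ) (hX : (16 : ℝ) ≤ X) (hS : Siz m η X P H)
    (hH2 : (H : ℝ) ^ 2 ≤ 16 * X) : 0 < (H : ℝ) ∧ (H : ℝ) ≤ 4 * (X : ℝ) ^ (1 / 2 : ℝ) := by
  have hX0 : (0 : ℝ) < X := by linarith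
  have hXη : (1 : ℝ) ≤ (X : ℝ) ^ η := Real.one_le_rpow (by linarith) hη.le
  constructor
  · rcases hS.hH0.lt_or_eq with h | h
    · exact h
    · exfalso
      have h1 := hS.hH
      rw [← h, zero_pow (by omega)] at h1
      nlinarith
  · have h1 : (H : ℝ) ^ 2 ≤ (4 * (X : ℝ) ^ (1 / 2 : ℝ)) ^ 2 := by
      have e1 : (4 * (X : ℝ) ^ (1 / 2 : ℝ)) ^ 2 = 16 * X := by
        rw [mul_pow, ← Real.rpow_natCast ((X : ℝ) ^ (1 / 2 : ℝ)) 2, ← Real.rpow_mul hX0.le]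
        norm_num
      rw [e1]
      exact hH2
    exact le_of_sq_le_sq h1 (by positivity)

theorem eq_x (hVK : VKp) (m : ℕ) (hm : 1 ≤ m) (η : ℝ) (hη : 0 < η) (A B : ℕ) : ∃ A0 : ℕ, ∀ A1 : ℕ, A0 ≤ A1 → ∀ A2 : ℕ, ∃ X0 : ℕ, ∀ X : ℕ, X0 ≤ X →
    ∀ (P d c H H1 : ℕ) (b : ℕ → ℝ), Siz m η X P H → (H : ℝ) ^ 2 ≤ 16 * X → 1 ≤ d → (d : ℝ) ≤ Real.log X ^ B → (∀ k, |b k| ≤ 1) →
    (∀ k, b k ≠ 0 → Nat.Coprime k d) → (H1 : ℝ) ≤ X / Real.log X ^ A1 → X / Real.log X ^ A2 ≤ H1 →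
    ∑ x ∈ Ico X (2 * X), ew (Fp b P) H H1 d c x ^ 2 ≤ X * (H : ℝ) ^ 2 / Real.log X ^ A := by
  obtain ⟨A0, hA0⟩ := cls_d hVK m hm η hη (A + 2) B
  refine ⟨A0, fun A1 hA1 A2 => ?_⟩
  obtain ⟨X1, hX1⟩ := hA0 A1 hA1
  obtain ⟨X2, hX2⟩ := long_c (A + A2 + 2) B η hη
  obtain ⟨X3, hX3⟩ := Main_big A2
  refine ⟨max X1 (max X2 X3), fun X hX P d c H H1 b hSz hH2 hd hdL hb hbc hH1u hH1l => ?_⟩
  have hXa : X1 ≤ X := le_trans (le_max_left _ _) hX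
  have hXb : X2 ≤ X := le_trans (le_trans (le_max_left _ _) (le_max_right _ _)) hX
  have hXc : X3 ≤ X := le_trans (le_trans (le_max_right _ _) (le_max_right _ _)) hX
  obtain ⟨hL, hb2, h16⟩ := hX3 X hXc
  obtain ⟨hHp, hHX⟩ := Main_size m η hη X P H h16 hSz hH2
  have hP := hSz.hPl
  have hPX := hSz.hPu
  have hX0 : (0 : ℝ) < X := by linarith
  have hl : (0 : ℝ) < Real.log X := by linarith
  have hHH1r : (H : ℝ) ≤ H1 := by linarith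
  have hHH1 : H ≤ H1 := by exact_mod_cast hHH1r
  have hH1p : (0 : ℝ) < H1 := lt_of_lt_of_le hHp hHH1r
  have hH1X : (H1 : ℝ) ≤ X := by
    refine hH1u.trans (div_le_self hX0.le (one_le_pow₀ (by linarith)))
  have hH1X' : H1 ≤ X := by exact_mod_cast hH1X
  have hpt : ∀ x ∈ Ico X (2 * X), ew (Fp b P) H H1 d c x ^ 2
      ≤ 2 * (H : ℝ) ^ 2 * ‖D (cf b P d c) H H1 x‖ ^ 2 + 2 * (H : ℝ) ^ 2 * (1 / Real.log X ^ (A + 2)) ^ 2 := by
    intro x hx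
    rw [Finset.mem_Ico] at hx
    refine Main_pt b P d c H H1 x _ hHp hH1p ?_
    refine (hX2 X hXb P d c x (x + H1) b hP hPX hd hdL (by omega) hb hbc).trans ?_
    have e1 : (X : ℝ) / Real.log X ^ (A + A2 + 2) = 1 / Real.log X ^ (A + 2) * (X / Real.log X ^ A2) := by
      rw [show A + A2 + 2 = (A + 2) + A2 by ring, pow_add]
      field_simp
    rw [e1]
    exact mul_le_mul_of_nonneg_left hH1l (by positivity)
  refine (Finset.sum_le_sum hpt).trans ?_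
  rw [Finset.sum_add_distrib, ← Finset.mul_sum, Finset.sum_const, Nat.card_Ico, nsmul_eq_mul]
  have hcl := hX1 X hXa P d c H H1 b hSz hd hdL hb hHH1 hH1u
  have hcard : ((2 * X - X : ℕ) : ℝ) = X := by
    have : 2 * X - X = X := by omega
    rw [this]
  rw [hcard]
  have hLA : (1 : ℝ) ≤ Real.log X ^ (A + 2) := one_le_pow₀ (by linarith)
  have hLA0 : (0 : ℝ) < Real.log X ^ (A + 2) := by linarith
  have h1 : (1 / Real.log X ^ (A + 2)) ^ 2 ≤ 1 / Real.log X ^ (A + 2) := by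
    have h01 : 1 / Real.log X ^ (A + 2) ≤ 1 := by
      rw [div_le_one hLA0]
      exact hLA
    have h00 : 0 ≤ 1 / Real.log X ^ (A + 2) := by positivity
    nlinarith
  calc 2 * (H : ℝ) ^ 2 * ∑ x ∈ Ico X (2 * X), ‖D (cf b P d c) H H1 x‖ ^ 2
        + X * (2 * (H : ℝ) ^ 2 * (1 / Real.log X ^ (A + 2)) ^ 2)
      ≤ 2 * (H : ℝ) ^ 2 * (X / Real.log X ^ (A + 2)) + X * (2 * (H : ℝ) ^ 2 * (1 / Real.log X ^ (A + 2))) := by
        gcongr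
    _ = 4 * (X * (H : ℝ) ^ 2) / (Real.log X ^ A * Real.log X ^ 2) := by
        rw [pow_add]
        ring
    _ ≤ X * (H : ℝ) ^ 2 / Real.log X ^ A := by
        rw [div_le_div_iff₀ (by positivity) (by positivity)]
        have h3 : (4 : ℝ) ≤ Real.log X ^ 2 := by nlinarith
        have h4 : (0 : ℝ) ≤ X * (H : ℝ) ^ 2 * Real.log X ^ A := by positivity
        nlinarith [mul_le_mul_of_nonneg_left h3 h4]

/-- `gam` is linear -/
private theorem Main_gam {ι : Type*} (s : Finset ι) (G : ι → ℕ → ℝ) (H1 x : ℕ) :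
    gam (fun n => ∑ j ∈ s, G j n) H1 x = ∑ j ∈ s, gam (G j) H1 x := by
  unfold gam
  rw [Finset.sum_comm, Finset.sum_div]

/-- `ew` is linear -/
private theorem Main_ew {ι : Type*} (s : Finset ι) (G : ι → ℕ → ℝ) (H H1 d c x : ℕ) :
    ew (fun n => ∑ j ∈ s, G j n) H H1 d c x = ∑ j ∈ s, ew (G j) H H1 d c x := by
  unfold ew
  rw [Main_gam, Finset.sum_sub_distrib, Finset.sum_comm]
  congr 1
  split_ifs with hc
  · rw [Finset.mul_sum, Finset.sum_div]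
  · simp

/-- the number of boxes -/
private theorem Main_J (X y J1 : ℕ) (hX : 4 ≤ Real.log X)
    (hy : 1 ≤ y) (h : 2 ^ J1 * y ≤ X) : (J1 : ℝ) ≤ 2 * Real.log X := by
  have h2 : (2 : ℝ) ^ J1 ≤ X := by
    have h1 : 2 ^ J1 ≤ X := (Nat.le_mul_of_pos_right _ hy).trans h
    exact_mod_cast h1
  have h3 : (J1 : ℝ) * Real.log 2 ≤ Real.log X := by
    rw [← Real.log_pow]
    exact Real.log_le_log (by positivity) h2
  have h4 := Real.log_two_gt_d9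
  have h5 : (0 : ℝ) ≤ J1 := by positivity
  nlinarith

theorem eq_s (hVK : VKp) (m : ℕ) (hm : 1 ≤ m) (η : ℝ) (hη : 0 < η) (A B : ℕ) : ∃ A0 : ℕ, ∀ A1 : ℕ, A0 ≤ A1 → ∀ A2 : ℕ, ∃ X0 : ℕ, ∀ X : ℕ, X0 ≤ X →
    ∀ (y J0 J1 d c H H1 : ℕ) (b : ℕ → ℕ → ℝ), (X : ℝ) ^ η ≤ (2 ^ J0 * y : ℕ) → 2 ^ J1 * y ≤ X → (X : ℝ) * (X : ℝ) ^ η ≤ (H : ℝ) ^ (2 * m + 3) →
    ((2 ^ J1 * y : ℕ) : ℝ) ^ (2 * m + 2) * (X : ℝ) ^ η ≤ X * (H : ℝ) ^ (2 * m + 1) → (H : ℝ) ^ 2 ≤ 16 * X → 1 ≤ d → (d : ℝ) ≤ Real.log X ^ B → (∀ j k, |b j k| ≤ 1) →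
    (∀ j k, b j k ≠ 0 → Nat.Coprime k d) → (H1 : ℝ) ≤ X / Real.log X ^ A1 → X / Real.log X ^ A2 ≤ H1 →
    ∑ x ∈ Ico X (2 * X), ew (Gs b y J0 J1) H H1 d c x ^ 2 ≤ X * (H : ℝ) ^ 2 / Real.log X ^ A := by
  obtain ⟨A0, hA0⟩ := eq_x hVK m hm η hη (A + 3) B
  refine ⟨A0, fun A1 hA1 A2 => ?_⟩
  obtain ⟨X1, hX1⟩ := hA0 A1 hA1 A2
  obtain ⟨X3, hX3⟩ := Main_big A2
  refine ⟨max X1 X3, fun X hX y J0 J1 d c H H1 b hP hJ1X hH hPH hH2 hd hdL hb hbc hH1u hH1l => ?_⟩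
  have hXa : X1 ≤ X := le_trans (le_max_left _ _) hX
  have hXc : X3 ≤ X := le_trans (le_max_right _ _) hX
  obtain ⟨hL, -, h16⟩ := hX3 X hXc
  have hX0 : (0 : ℝ) < X := by linarith
  have hX1' : (1 : ℝ) ≤ X := by linarith
  have hl : (0 : ℝ) < Real.log X := by linarith
  have hone : (1 : ℝ) ≤ (X : ℝ) ^ η := Real.one_le_rpow hX1' hη.le
  have hy : 1 ≤ y := by
    rcases Nat.eq_zero_or_pos y with h0 | h0
    · exfalso
      rw [h0] at hP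
      simp at hP
      linarith
    · exact h0
  have hJ1 : (J1 : ℝ) ≤ 2 * Real.log X := Main_J X y J1 hL hy hJ1X
  have hbox : ∀ j ∈ Ico J0 J1, ∑ x ∈ Ico X (2 * X), ew (Fp (b j) (2 ^ j * y)) H H1 d c x ^ 2
      ≤ X * (H : ℝ) ^ 2 / Real.log X ^ (A + 3) := by
    intro j hj
    rw [Finset.mem_Ico] at hj
    have h1 : 2 ^ j * y ≤ 2 ^ J1 * y := Nat.mul_le_mul_right _ (Nat.pow_le_pow_right (by norm_num) hj.2.le)
    refine hX1 X hXa (2 ^ j * y) d c H H1 (b j) ⟨?_, h1.trans hJ1X, hH, ?_, Nat.cast_nonneg _⟩ hH2 hd hdL (hb j) (hbc j) hH1u hH1l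
    · refine hP.trans ?_
      have : 2 ^ J0 * y ≤ 2 ^ j * y := Nat.mul_le_mul_right _ (Nat.pow_le_pow_right (by norm_num) hj.1)
      exact_mod_cast this
    · refine le_trans ?_ hPH
      have h2 : ((2 ^ j * y : ℕ) : ℝ) ≤ ((2 ^ J1 * y : ℕ) : ℝ) := by exact_mod_cast h1
      gcongr
  have hpt : ∀ x ∈ Ico X (2 * X), ew (Gs b y J0 J1) H H1 d c x ^ 2
      ≤ ((Ico J0 J1).card : ℝ) * ∑ j ∈ Ico J0 J1, ew (Fp (b j) (2 ^ j * y)) H H1 d c x ^ 2 := by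
    intro x _
    have h1 : ew (Gs b y J0 J1) H H1 d c x = ∑ j ∈ Ico J0 J1, ew (Fp (b j) (2 ^ j * y)) H H1 d c x := by
      have h2 : Gs b y J0 J1 = fun n => ∑ j ∈ Ico J0 J1, Fp (b j) (2 ^ j * y) n := by
        funext n
        rfl
      rw [h2]
      exact Main_ew _ _ _ _ _ _ _
    rw [h1]
    exact sq_sum_le_card_mul_sum_sq
  refine (Finset.sum_le_sum hpt).trans ?_
  rw [← Finset.mul_sum, Finset.sum_comm]
  have hcard : ((Ico J0 J1).card : ℝ) ≤ 2 * Real.log X := by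
    rw [Nat.card_Ico]
    refine le_trans ?_ hJ1
    exact_mod_cast Nat.sub_le _ _
  calc ((Ico J0 J1).card : ℝ) * ∑ j ∈ Ico J0 J1, ∑ x ∈ Ico X (2 * X), ew (Fp (b j) (2 ^ j * y)) H H1 d c x ^ 2
      ≤ ((Ico J0 J1).card : ℝ) * ∑ j ∈ Ico J0 J1, X * (H : ℝ) ^ 2 / Real.log X ^ (A + 3) := by
        refine mul_le_mul_of_nonneg_left (Finset.sum_le_sum hbox) (by positivity)
    _ = ((Ico J0 J1).card : ℝ) ^ 2 * (X * (H : ℝ) ^ 2 / Real.log X ^ (A + 3)) := by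
        rw [Finset.sum_const, nsmul_eq_mul]
        ring
    _ ≤ (2 * Real.log X) ^ 2 * (X * (H : ℝ) ^ 2 / Real.log X ^ (A + 3)) := by
        gcongr
    _ = 4 * (X * (H : ℝ) ^ 2) * Real.log X ^ 2 / (Real.log X ^ A * Real.log X ^ 3) := by
        rw [pow_add]
        ring
    _ ≤ X * (H : ℝ) ^ 2 / Real.log X ^ A := by
        rw [div_le_div_iff₀ (by positivity) (by positivity)]
        have h3 : 4 * Real.log X ^ 2 ≤ Real.log X ^ 3 := by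
          have : Real.log X ^ 3 = Real.log X * Real.log X ^ 2 := by ring
          rw [this]
          exact mul_le_mul_of_nonneg_right hL (by positivity)
        have h4 : (0 : ℝ) ≤ X * (H : ℝ) ^ 2 * Real.log X ^ A := by positivity
        nlinarith [mul_le_mul_of_nonneg_left h3 h4]

end Pool.Agent.H31.EK
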