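import Pool.Agent.H31.EK.Vol
import Pool.Agent.H31.EK.Lev
import Pool.Agent.H31.EQ.DualK
import Pool.Agent.H53.MID.VkPr

/-!
# EK PInt: the mean square of the product of the two polynomials, with the moment `2(m+1)` of the prime polynomial

`L = log X`, `R = {L^K' ≤ |t| ≤ T}`, `p t = ‖Pl P d l t‖`, `q t = ‖Kl b K1 K2 a t‖^2`, `V0 = P/L^K`, `K = A + 2`, from `vk_pr`.  `E = X^(η/(8m))`, `F = X^(η/2)`.
* `P E ≤ H`: `∫ ≤ V0² S`, `S = (2T + 2 K2 (1+log K2)) K2`: `≤ L^(-2K) (32 X² + 1024 X² L)` (`T P ≤ T H/E ≤ X`).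
* `H < P E`: level sets (`lev`), `V1² := P²/(E (1 + P/H))`, `J` least with `V0²/4^J ≤ V1²`.
  The terms `2 V0² Q1` and `V1² S` as in `EQ/PInt.lean`; the middle term is
  `≤ 4^(2m+1) W Q0/V1^(2m) ≤ C_m L² √T (K2 P) (2T + 2 (2P)^(m+1) lg) E^(2m)/H^m`, and with `X = x²`, `H = s²`: `√T ≤ (x/s) L^C4`, `x F ≤ s^(2m+3)`, `P^(m+1) ≤ x s^(2m+1)/F`.
-/

set_option autoImplicit false

namespace Pool.Agent.H31.EK

open Finset MeasureTheory
open Pool.Agent.H91.PK (ee)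
open Pool.Agent.H35.W (pb)
open Pool.Agent.H53.MID (Fp Pl Kl VKp)
open Pool.Agent.H31.EQ (dual_k mv_k)

/-- the sizes of the parameters -/
structure Siz (m : ℕ) (η : ℝ) (X P : ℕ) (H : ℝ) : Prop where
  hPl : (X : ℝ) ^ η ≤ P
  hPu : P ≤ X
  hH : (X : ℝ) * (X : ℝ) ^ η ≤ H ^ (2 * m + 3)
  hP : (P : ℝ) ^ (2 * m + 2) * (X : ℝ) ^ η ≤ X * H ^ (2 * m + 1)
  hH0 : 0 ≤ H

private theorem PInt_contP (P d l : ℕ) : Continuous fun t : ℝ => ‖Pl P d l t‖ := by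
  unfold Pl
  refine continuous_norm.comp (continuous_finsetSum _ fun p _ => ?_)
  unfold ee
  fun_prop

private theorem PInt_contK (b : ℕ → ℝ) (K1 K2 : ℕ) (a : ℝ) : Continuous fun t : ℝ => ‖Kl b K1 K2 a t‖ ^ 2 := by
  unfold Kl
  refine (continuous_norm.comp (continuous_finsetSum _ fun p _ => ?_)).pow 2
  unfold ee
  fun_prop

private theorem PInt_J (r : ℝ) (hr : 1 ≤ r) : ∃ J : ℕ, r ≤ 4 ^ J ∧ (4 : ℝ) ^ J ≤ 4 * r := by
  obtain ⟨n, h1, h2⟩ := exists_nat_pow_near hr (show (1 : ℝ) < 4 by norm_num)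
  refine ⟨n + 1, h2.le, ?_⟩
  rw [pow_succ]
  linarith

private theorem PInt_t1 (C L X P K2 : ℝ) (A : ℕ) (hC : 1 ≤ C) (hL : 1536 * C ≤ L) (hX : 0 < X)
    (hP : 0 ≤ P) (hK : 0 ≤ K2) (hPK : K2 * P ≤ 16 * X) :
    2 * (P / L ^ (A + 2)) ^ 2 * (C * L ^ 2 * K2 ^ 2) ≤ X ^ 2 / (3 * L ^ A) := by
  have hL1 : 1 ≤ L := by linarith
  have hL0 : 0 < L := by linarith
  have h1 : (K2 * P) ^ 2 ≤ (16 * X) ^ 2 := pow_le_pow_left₀ (mul_nonneg hK hP) hPK 2
  have h2 : 2 * (P / L ^ (A + 2)) ^ 2 * (C * L ^ 2 * K2 ^ 2) = 2 * C * (K2 * P) ^ 2 * L ^ 2 / (L ^ (A + 2)) ^ 2 := by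
    rw [div_pow]
    ring
  rw [h2]
  have h3 : 2 * C * (K2 * P) ^ 2 * L ^ 2 / (L ^ (A + 2)) ^ 2 ≤ 2 * C * (16 * X) ^ 2 * L ^ 2 / (L ^ (A + 2)) ^ 2 := by
    apply div_le_div_of_nonneg_right _ (by positivity)
    apply mul_le_mul_of_nonneg_right _ (by positivity)
    exact mul_le_mul_of_nonneg_left h1 (by linarith)
  refine h3.trans ?_
  rw [div_le_div_iff₀ (by positivity) (by positivity)]
  have h4 : (L ^ (A + 2)) ^ 2 = L ^ A * L ^ 2 * L ^ (A + 2) := by ring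
  rw [h4]
  have h5 : L ≤ L ^ (A + 2) := le_self_pow₀ hL1 (by omega)
  have h6 : 1536 * C ≤ L ^ (A + 2) := hL.trans h5
  have h7 : 0 ≤ X ^ 2 * (L ^ A * L ^ 2) := by positivity
  calc 2 * C * (16 * X) ^ 2 * L ^ 2 * (3 * L ^ A) = X ^ 2 * (L ^ A * L ^ 2) * (1536 * C) := by ring
    _ ≤ X ^ 2 * (L ^ A * L ^ 2) * L ^ (A + 2) := mul_le_mul_of_nonneg_left h6 h7
    _ = X ^ 2 * (L ^ A * L ^ 2 * L ^ (A + 2)) := by ring

/-- the case of small `P` -/
private theorem PInt_t0 (L X P K2 H T E : ℝ) (A C4 : ℕ) (hL : 3168 ≤ L) (hX : 0 < X) (hP : 0 < P) (hK : 0 ≤ K2)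
    (hT : 0 ≤ T) (hE : 0 < E) (hPK : K2 * P ≤ 16 * X) (hTH : T * H ≤ X * L ^ C4)
    (hPE : P * E ≤ H) (hEL : L ^ C4 ≤ E) :
    (P / L ^ (A + 2)) ^ 2 * ((2 * T + 4 * K2 * L) * K2) ≤ X ^ 2 / L ^ A := by
  have hL0 : 0 < L := by linarith
  have hL1 : 1 ≤ L := by linarith
  have hTP : T * P ≤ X := by
    have h1 : T * P * E ≤ X * E := by
      calc T * P * E = T * (P * E) := by ring
        _ ≤ T * H := mul_le_mul_of_nonneg_left hPE hT
        _ ≤ X * L ^ C4 := hTH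
        _ ≤ X * E := mul_le_mul_of_nonneg_left hEL hX.le
    exact le_of_mul_le_mul_right h1 hE
  have e1 : (P / L ^ (A + 2)) ^ 2 * ((2 * T + 4 * K2 * L) * K2) =
      (2 * (K2 * P) * (T * P) + 4 * L * (K2 * P) * (K2 * P)) / (L ^ (A + 2)) ^ 2 := by
    rw [div_pow]
    ring
  rw [e1]
  have hKP0 : 0 ≤ K2 * P := by positivity
  have h2 : 2 * (K2 * P) * (T * P) ≤ 2 * (16 * X) * X :=
    mul_le_mul (by linarith) hTP (by positivity) (by positivity)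
  have h3 : 4 * L * (K2 * P) * (K2 * P) ≤ 4 * L * (16 * X) * (16 * X) := by
    apply mul_le_mul _ hPK hKP0 (by positivity)
    exact mul_le_mul_of_nonneg_left hPK (by positivity)
  have h4 : 2 * (K2 * P) * (T * P) + 4 * L * (K2 * P) * (K2 * P) ≤ 1056 * (X ^ 2 * L) := by
    have h5 : X ^ 2 * 1 ≤ X ^ 2 * L := mul_le_mul_of_nonneg_left hL1 (by positivity)
    nlinarith
  refine (div_le_div_of_nonneg_right h4 (by positivity)).trans ?_
  rw [div_le_div_iff₀ (by positivity) (by positivity)]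
  have h6 : (L ^ (A + 2)) ^ 2 = L ^ A * L * (L * L ^ (A + 2)) := by ring
  rw [h6]
  have h7 : 1 ≤ L ^ (A + 2) := one_le_pow₀ hL1
  have h8 : 1056 ≤ L * L ^ (A + 2) := by nlinarith
  calc 1056 * (X ^ 2 * L) * L ^ A = X ^ 2 * (L ^ A * L) * 1056 := by ring
    _ ≤ X ^ 2 * (L ^ A * L) * (L * L ^ (A + 2)) := mul_le_mul_of_nonneg_left h8 (by positivity)
    _ = X ^ 2 * (L ^ A * L * (L * L ^ (A + 2))) := by ring

private theorem PInt_t3 (L X P K2 H T E : ℝ) (A C4 : ℕ) (hL : 1 ≤ L) (hX : 0 < X) (hP : 0 < P) (hK : 0 ≤ K2)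
    (hH : 0 < H) (hT : 0 ≤ T) (hE : 0 < E) (hPK : K2 * P ≤ 16 * X) (hTH : T * H ≤ X * L ^ C4)
    (hEL : 3168 * L ^ (C4 + 1 + A) ≤ E) :
    P ^ 2 / (E * (1 + P / H)) * ((2 * T + 4 * K2 * L) * K2) ≤ X ^ 2 / (3 * L ^ A) := by
  have hL0 : 0 < L := by linarith
  have hq : 0 < 1 + P / H := by positivity
  have hPH : P / (1 + P / H) ≤ H := by
    rw [div_le_iff₀ hq]
    have : H * (1 + P / H) = H + P := by field_simp
    rw [this]
    linarith
  have hP1 : P / (1 + P / H) ≤ P := by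
    rw [div_le_iff₀ hq]
    have : 0 ≤ P * (P / H) := by positivity
    nlinarith
  have h0 : 0 ≤ P / (1 + P / H) := by positivity
  have h1 : P ^ 2 / (E * (1 + P / H)) * ((2 * T + 4 * K2 * L) * K2) =
      (2 * (K2 * P) * (T * (P / (1 + P / H))) + 4 * L * (K2 * P) * (K2 * (P / (1 + P / H)))) / E := by
    field_simp
  rw [h1]
  have h2 : 2 * (K2 * P) * (T * (P / (1 + P / H))) ≤ 2 * (16 * X) * (X * L ^ C4) := by
    apply mul_le_mul (by linarith) _ (by positivity) (by positivity)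
    exact (mul_le_mul_of_nonneg_left hPH hT).trans hTH
  have h3 : 4 * L * (K2 * P) * (K2 * (P / (1 + P / H))) ≤ 4 * L * (16 * X) * (16 * X) := by
    apply mul_le_mul _ _ (by positivity) (by positivity)
    · exact mul_le_mul_of_nonneg_left hPK (by positivity)
    · exact (mul_le_mul_of_nonneg_left hP1 hK).trans hPK
  have h4 : L ^ C4 ≤ L ^ (C4 + 1) := pow_le_pow_right₀ hL (by omega)
  have h5 : L ≤ L ^ (C4 + 1) := le_self_pow₀ hL (by omega)
  have h6 : 2 * (K2 * P) * (T * (P / (1 + P / H))) + 4 * L * (K2 * P) * (K2 * (P / (1 + P / H))) ≤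
      1056 * X ^ 2 * L ^ (C4 + 1) := by
    have a1 : 2 * (16 * X) * (X * L ^ C4) ≤ 32 * X ^ 2 * L ^ (C4 + 1) := by
      calc 2 * (16 * X) * (X * L ^ C4) = 32 * X ^ 2 * L ^ C4 := by ring
        _ ≤ 32 * X ^ 2 * L ^ (C4 + 1) := mul_le_mul_of_nonneg_left h4 (by positivity)
    have a2 : 4 * L * (16 * X) * (16 * X) ≤ 1024 * X ^ 2 * L ^ (C4 + 1) := by
      calc 4 * L * (16 * X) * (16 * X) = 1024 * X ^ 2 * L := by ring
        _ ≤ 1024 * X ^ 2 * L ^ (C4 + 1) := mul_le_mul_of_nonneg_left h5 (by positivity)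
    linarith
  refine (div_le_div_of_nonneg_right h6 hE.le).trans ?_
  rw [div_le_div_iff₀ hE (by positivity)]
  calc 1056 * X ^ 2 * L ^ (C4 + 1) * (3 * L ^ A) = X ^ 2 * (3168 * L ^ (C4 + 1 + A)) := by
        rw [pow_add L (C4 + 1) A]
        ring
    _ ≤ X ^ 2 * E := mul_le_mul_of_nonneg_left hEL (by positivity)

/-- the constant of the middle term -/
private noncomputable def cM (m : ℕ) : ℝ := 48 * 4 ^ (2 * m + 1) * 2 ^ m * (m + 1).factorial * (2 + 2 ^ (m + 2) * (2 * m + 3))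

private theorem cM_pos (m : ℕ) : 0 < cM m := by
  unfold cM
  have : 0 < (m + 1).factorial := Nat.factorial_pos _
  positivity

/-- the middle term -/
private theorem PInt_t2 (C L X P K2 H T E F x s lg : ℝ) (A C4 m : ℕ) (hC : 1 ≤ C) (hL : 1 ≤ L) (hP : 0 < P)
    (hT : 0 ≤ T) (hE : 1 ≤ E) (hF : 0 < F) (hx : 0 < x) (hs : 0 < s) (hXx : X = x ^ 2) (hHs : H = s ^ 2)
    (hPK : K2 * P ≤ 16 * X) (hTH : T * H ≤ X * L ^ C4) (hEP : H ≤ P * E) (hPF : P ^ (m + 1) * F ≤ x * s ^ (2 * m + 1))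
    (hxF : x * F ≤ s ^ (2 * m + 3)) (hlg0 : 0 ≤ lg) (hlg : lg ≤ (2 * m + 3) * L)
    (hEL : cM m * C * L ^ (2 * C4 + 3 + A) * E ^ (2 * m) ≤ F) :
    4 ^ (2 * m + 1) * (C * L ^ 2 * Real.sqrt T * K2) * ((2 * T + 2 * (2 * P) ^ (m + 1) * lg) * ((m + 1).factorial * P ^ (m + 1))) /
      (P ^ 2 / (E * (1 + P / H))) ^ m ≤ X ^ 2 / (3 * L ^ A) := by
  have hL0 : 0 < L := by linarith
  have hC0 : 0 < C := by linarith
  have hE0 : 0 < E := by linarith
  have hX : 0 < X := by rw [hXx]; positivity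
  have hH : 0 < H := by rw [hHs]; positivity
  have hq : 0 < 1 + P / H := by positivity
  -- the square root of `T`
  have hT1 : T ≤ (x / s) ^ 2 * L ^ C4 := by
    rw [div_pow, div_mul_eq_mul_div, le_div_iff₀ (by positivity), ← hXx, ← hHs]
    exact hTH
  have hL1C : L ^ C4 ≤ (L ^ C4) ^ 2 := le_self_pow₀ (one_le_pow₀ hL) (by norm_num)
  have hsT : Real.sqrt T ≤ x / s * L ^ C4 := by
    rw [Real.sqrt_le_left (by positivity), mul_pow]
    exact hT1.trans (mul_le_mul_of_nonneg_left hL1C (by positivity))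
  have hsT0 := Real.sqrt_nonneg T
  -- the quotient
  have hquo : (E * (1 + P / H)) ^ m ≤ 2 ^ m * E ^ (2 * m) * P ^ m / H ^ m := by
    have h1 : E * (1 + P / H) ≤ 2 * E ^ 2 * P / H := by
      rw [le_div_iff₀ hH]
      have h2 : E * (1 + P / H) * H = E * (H + P) := by field_simp
      rw [h2]
      have h3 : E * H ≤ E * (P * E) := mul_le_mul_of_nonneg_left hEP hE0.le
      have h4 : E * P * 1 ≤ E * P * E := mul_le_mul_of_nonneg_left hE (by positivity)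
      nlinarith
    calc (E * (1 + P / H)) ^ m ≤ (2 * E ^ 2 * P / H) ^ m := pow_le_pow_left₀ (by positivity) h1 m
      _ = 2 ^ m * E ^ (2 * m) * P ^ m / H ^ m := by
        rw [div_pow, mul_pow, mul_pow, ← pow_mul]
  -- the sum
  set c0 : ℝ := 2 + 2 ^ (m + 2) * (2 * m + 3) with hc0
  have hc00 : 0 < c0 := by rw [hc0]; positivity
  set Z : ℝ := Real.sqrt T * (2 * T + 2 * (2 * P) ^ (m + 1) * lg) with hZ
  have hZ0 : 0 ≤ Z := by rw [hZ]; positivity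
  have hZF : Z * F ≤ c0 * X * L ^ (2 * C4 + 1) * H ^ m := by
    have hHm : H ^ m = s ^ (2 * m) := by rw [hHs, ← pow_mul]
    have b1 : Real.sqrt T * (2 * T) * F ≤ 2 * X * L ^ (2 * C4 + 1) * H ^ m := by
      have a1 : Real.sqrt T * (2 * T) ≤ (x / s * L ^ C4) * (2 * ((x / s) ^ 2 * L ^ C4)) :=
        mul_le_mul hsT (by linarith) (by positivity) (by positivity)
      have a2 : (x / s * L ^ C4) * (2 * ((x / s) ^ 2 * L ^ C4)) * F = 2 * x ^ 2 * L ^ (2 * C4) * (x * F) / s ^ 3 := by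
        rw [show 2 * C4 = C4 + C4 by ring, pow_add]
        field_simp
      have a3 : 2 * x ^ 2 * L ^ (2 * C4) * (x * F) / s ^ 3 ≤ 2 * x ^ 2 * L ^ (2 * C4) * s ^ (2 * m + 3) / s ^ 3 := by
        apply div_le_div_of_nonneg_right _ (by positivity)
        exact mul_le_mul_of_nonneg_left hxF (by positivity)
      have a4 : 2 * x ^ 2 * L ^ (2 * C4) * s ^ (2 * m + 3) / s ^ 3 = 2 * X * L ^ (2 * C4) * H ^ m := by
        rw [hHm, hXx, pow_add s (2 * m) 3]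
        field_simp
      have a5 : 2 * X * L ^ (2 * C4) * H ^ m ≤ 2 * X * L ^ (2 * C4 + 1) * H ^ m := by
        apply mul_le_mul_of_nonneg_right _ (by positivity)
        exact mul_le_mul_of_nonneg_left (pow_le_pow_right₀ hL (by omega)) (by positivity)
      calc Real.sqrt T * (2 * T) * F ≤ (x / s * L ^ C4) * (2 * ((x / s) ^ 2 * L ^ C4)) * F :=
            mul_le_mul_of_nonneg_right a1 hF.le
        _ = 2 * x ^ 2 * L ^ (2 * C4) * (x * F) / s ^ 3 := a2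
        _ ≤ 2 * x ^ 2 * L ^ (2 * C4) * s ^ (2 * m + 3) / s ^ 3 := a3
        _ = 2 * X * L ^ (2 * C4) * H ^ m := a4
        _ ≤ 2 * X * L ^ (2 * C4 + 1) * H ^ m := a5
    have b2 : Real.sqrt T * (2 * (2 * P) ^ (m + 1) * lg) * F ≤ 2 ^ (m + 2) * (2 * m + 3) * X * L ^ (2 * C4 + 1) * H ^ m := by
      have a1 : Real.sqrt T * (2 * (2 * P) ^ (m + 1) * lg) * F = 2 ^ (m + 2) * (Real.sqrt T * (lg * (P ^ (m + 1) * F))) := by
        rw [mul_pow, pow_succ (2 : ℝ) (m + 1)]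
        ring
      have a2 : lg * (P ^ (m + 1) * F) ≤ ((2 * m + 3) * L) * (x * s ^ (2 * m + 1)) :=
        mul_le_mul hlg hPF (by positivity) (by positivity)
      have a3 : Real.sqrt T * (lg * (P ^ (m + 1) * F)) ≤ (x / s * L ^ C4) * (((2 * m + 3) * L) * (x * s ^ (2 * m + 1))) :=
        mul_le_mul hsT a2 (by positivity) (by positivity)
      have a4 : (x / s * L ^ C4) * (((2 * m + 3) * L) * (x * s ^ (2 * m + 1))) = (2 * m + 3) * X * L ^ (C4 + 1) * H ^ m := by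
        rw [hHm, hXx, pow_succ s (2 * m), pow_succ L C4]
        field_simp
      have a5 : L ^ (C4 + 1) ≤ L ^ (2 * C4 + 1) := pow_le_pow_right₀ hL (by omega)
      rw [a1]
      calc 2 ^ (m + 2) * (Real.sqrt T * (lg * (P ^ (m + 1) * F)))
          ≤ 2 ^ (m + 2) * ((2 * m + 3) * X * L ^ (C4 + 1) * H ^ m) := by
            rw [← a4]
            exact mul_le_mul_of_nonneg_left a3 (by positivity)
        _ ≤ 2 ^ (m + 2) * ((2 * m + 3) * X * L ^ (2 * C4 + 1) * H ^ m) := by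
            apply mul_le_mul_of_nonneg_left _ (by positivity)
            apply mul_le_mul_of_nonneg_right _ (by positivity)
            exact mul_le_mul_of_nonneg_left a5 (by positivity)
        _ = 2 ^ (m + 2) * (2 * m + 3) * X * L ^ (2 * C4 + 1) * H ^ m := by ring
    have b3 : Z * F = Real.sqrt T * (2 * T) * F + Real.sqrt T * (2 * (2 * P) ^ (m + 1) * lg) * F := by
      rw [hZ]
      ring
    rw [b3, hc0]
    have b4 : (2 + 2 ^ (m + 2) * (2 * (m : ℝ) + 3)) * X * L ^ (2 * C4 + 1) * H ^ m =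
        2 * X * L ^ (2 * C4 + 1) * H ^ m + 2 ^ (m + 2) * (2 * m + 3) * X * L ^ (2 * C4 + 1) * H ^ m := by ring
    rw [b4]
    exact add_le_add b1 b2
  -- assembly
  set f0 : ℝ := ((m + 1).factorial : ℝ) with hf0
  have hf00 : 0 < f0 := by
    rw [hf0]
    exact_mod_cast Nat.factorial_pos (m + 1)
  have e1 : 4 ^ (2 * m + 1) * (C * L ^ 2 * Real.sqrt T * K2) * ((2 * T + 2 * (2 * P) ^ (m + 1) * lg) * (f0 * P ^ (m + 1))) /
      (P ^ 2 / (E * (1 + P / H))) ^ m =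
      (4 ^ (2 * m + 1) * f0 * C * L ^ 2 * (K2 * P) * Z) * ((E * (1 + P / H)) ^ m / P ^ m) := by
    rw [hZ, div_pow, pow_succ P m, ← pow_mul, show P ^ (2 * m) = P ^ m * P ^ m by rw [← pow_add]; congr 1; ring]
    have h1 : (E * (1 + P / H)) ^ m ≠ 0 := by positivity
    generalize (E * (1 + P / H)) ^ m = e at h1
    have h2 : P ^ m ≠ 0 := by positivity
    generalize P ^ m = pm at h2
    field_simp
  rw [e1]
  have h5 : (E * (1 + P / H)) ^ m / P ^ m ≤ 2 ^ m * E ^ (2 * m) / H ^ m := by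
    rw [div_le_iff₀ (by positivity)]
    refine hquo.trans (le_of_eq ?_)
    ring
  have h6 : (4 ^ (2 * m + 1) * f0 * C * L ^ 2 * (K2 * P) * Z) * ((E * (1 + P / H)) ^ m / P ^ m) ≤
      (4 ^ (2 * m + 1) * f0 * C * L ^ 2 * (16 * X) * Z) * (2 ^ m * E ^ (2 * m) / H ^ m) := by
    apply mul_le_mul _ h5 (by positivity) (by positivity)
    apply mul_le_mul_of_nonneg_right _ hZ0
    exact mul_le_mul_of_nonneg_left hPK (by positivity)
  refine h6.trans ?_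
  rw [mul_div_assoc', div_le_div_iff₀ (by positivity) (by positivity)]
  -- multiply by `F`
  refine le_of_mul_le_mul_right ?_ hF
  calc 4 ^ (2 * m + 1) * f0 * C * L ^ 2 * (16 * X) * Z * (2 ^ m * E ^ (2 * m)) * (3 * L ^ A) * F
      = (48 * 4 ^ (2 * m + 1) * 2 ^ m * f0 * C * L ^ 2 * L ^ A * E ^ (2 * m) * X) * (Z * F) := by ring
    _ ≤ (48 * 4 ^ (2 * m + 1) * 2 ^ m * f0 * C * L ^ 2 * L ^ A * E ^ (2 * m) * X) * (c0 * X * L ^ (2 * C4 + 1) * H ^ m) :=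
        mul_le_mul_of_nonneg_left hZF (by positivity)
    _ = (cM m * C * L ^ (2 * C4 + 3 + A) * E ^ (2 * m)) * (X ^ 2 * H ^ m) := by
        have h7 : L ^ (2 * C4 + 3 + A) = L ^ 2 * L ^ A * L ^ (2 * C4 + 1) := by
          rw [← pow_add, ← pow_add]
          congr 1
          omega
        rw [h7, cM, hc0, hf0]
        ring
    _ ≤ F * (X ^ 2 * H ^ m) := mul_le_mul_of_nonneg_right hEL (by positivity)
    _ = X ^ 2 * H ^ m * F := by ring

theorem p_int (hVK : VKp) (m : ℕ) (hm : 1 ≤ m) (η : ℝ) (hη : 0 < η) (A B C4 : ℕ) : ∃ K' X0 : ℕ, ∀ X : ℕ, X0 ≤ X →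
    ∀ (P K1 K2 d l : ℕ) (b : ℕ → ℝ) (H a T : ℝ), Siz m η X P H → K2 * P ≤ 16 * X → 1 ≤ d → (d : ℝ) ≤ Real.log X ^ B →
    (∀ k, |b k| ≤ 1) → 1 ≤ T → T * H ≤ X * Real.log X ^ C4 →
    ∫ t in {t : ℝ | Real.log X ^ K' ≤ |t| ∧ |t| ≤ T}, ‖Pl P d l t‖ ^ 2 * ‖Kl b K1 K2 a t‖ ^ 2
      ≤ (X : ℝ) ^ 2 / Real.log X ^ A := by
  have hmr : (1 : ℝ) ≤ m := by exact_mod_cast hm
  have hηm : 0 < η / (8 * m) := by positivity
  obtain ⟨C, hC1, hdual⟩ := dual_k
  obtain ⟨K', X1, hvk⟩ := Pool.Agent.H53.MID.vk_pr hVK (A + 2) B η hη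
  obtain ⟨X2, hX2⟩ := Pool.Agent.H80.LV.log_ge (max (1536 * C) 3168)
  obtain ⟨X3, hX3⟩ := Pool.Agent.H80.LV.log_pow_le (η / 4) (cM m * C) (by positivity) (mul_pos (cM_pos m) (by linarith)) (2 * C4 + 3 + A)
  obtain ⟨X4, hX4⟩ := Pool.Agent.H80.LV.log_pow_le (η / (8 * m)) 1 hηm one_pos (2 * (A + 2))
  obtain ⟨X5, hX5⟩ := Pool.Agent.H80.LV.log_pow_le 1 1 one_pos one_pos (C4 * (2 * m + 3))
  obtain ⟨X6, hX6⟩ := Pool.Agent.H80.LV.pow_ge η 16 hη
  obtain ⟨X7, hX7⟩ := Pool.Agent.H80.LV.log_pow_le (η / (8 * m)) 3168 hηm (by norm_num) (C4 + 1 + A)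
  refine ⟨K', max (max (max X1 X2) (max X3 X4)) (max (max X5 X6) (max X7 3)), ?_⟩
  intro X hX P K1 K2 d l b H a T hS hK hd hdB hb hT hTH
  simp only [max_le_iff] at hX
  obtain ⟨⟨⟨g1, g2⟩, ⟨g3, g4⟩⟩, ⟨g5, g6⟩, ⟨g7, g8⟩⟩ := hX
  have hvk' := hvk X g1
  have hL := hX2 X g2
  have hE1 := hX3 X g3
  have hE2 := hX4 X g4
  have hL5 := hX5 X g5
  have h16 := hX6 X g6
  have hE3 := hX7 X g7
  have hL4 : 3168 ≤ Real.log X := (le_max_right _ _).trans hL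
  have hLC : 1536 * C ≤ Real.log X := (le_max_left _ _).trans hL
  obtain ⟨hPl, hPX, hSH, hSP, hH00⟩ := hS
  set L := Real.log X with hL_def
  have hL1 : 1 ≤ L := by linarith
  have hL0 : 0 < L := by linarith
  have hXr : (3 : ℝ) ≤ X := by exact_mod_cast g8
  have hX0 : (0 : ℝ) < X := by linarith
  have hX1r : (1 : ℝ) ≤ X := by linarith
  have hP16 : (16 : ℝ) ≤ P := h16.trans hPl
  have hP0 : (0 : ℝ) < P := by linarith
  have hKr : (K2 : ℝ) * P ≤ 16 * X := by exact_mod_cast hK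
  have hK0 : (0 : ℝ) ≤ K2 := Nat.cast_nonneg _
  have hK2X : K2 ≤ X := by
    have : (K2 : ℝ) ≤ X := by nlinarith
    exact_mod_cast this
  have hT0 : 0 < T := by linarith
  have hXη : (1 : ℝ) ≤ (X : ℝ) ^ η := Real.one_le_rpow hX1r hη.le
  have hHL : L ^ C4 ≤ H := by
    have h1 : (L ^ C4) ^ (2 * m + 3) ≤ H ^ (2 * m + 3) := by
      rw [← pow_mul]
      rw [one_mul, Real.rpow_one] at hL5
      refine hL5.trans (le_trans ?_ hSH)
      nlinarith
    exact le_of_pow_le_pow_left₀ (by omega) hH00 h1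
  have hH1 : 1 ≤ H := (one_le_pow₀ hL1).trans hHL
  have hH0 : 0 < H := by linarith
  have hTX : T ≤ X := by
    have h2 : T * H ≤ X * H := hTH.trans (mul_le_mul_of_nonneg_left hHL hX0.le)
    exact le_of_mul_le_mul_right h2 hH0
  -- the region
  set R : Set ℝ := {t : ℝ | L ^ K' ≤ |t| ∧ |t| ≤ T} with hR_def
  have hRm : MeasurableSet R :=
    (measurableSet_le measurable_const continuous_abs.measurable).inter
      (measurableSet_le continuous_abs.measurable measurable_const)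
  have hRT : R ⊆ Set.Icc (-T) T := fun t ht => abs_le.1 ht.2
  have hVR : ∀ t ∈ R, ‖Pl P d l t‖ ≤ P / L ^ (A + 2) := by
    intro t ht
    refine hvk' P d l t hPl hPX hd hdB ht.1 (ht.2.trans (hTX.trans ?_))
    exact le_self_pow₀ hX1r (by norm_num)
  have htot : ∫ t in R, ‖Kl b K1 K2 a t‖ ^ 2 ≤ (2 * T + 4 * K2 * L) * K2 := by
    have h1 : ∫ t in R, ‖Kl b K1 K2 a t‖ ^ 2 ≤ (2 * T + 2 * K2 * (1 + Real.log K2)) * K2 := by
      refine le_trans ?_ (mv_k K1 K2 b a T hT0.le hb)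
      exact setIntegral_mono_set ((PInt_contK b K1 K2 a).continuousOn.integrableOn_Icc)
        (Filter.Eventually.of_forall fun t => by positivity) (Filter.Eventually.of_forall hRT)
    refine h1.trans ?_
    have h2 : Real.log K2 ≤ L := by
      rcases Nat.eq_zero_or_pos K2 with h | h
      · rw [h, Nat.cast_zero, Real.log_zero]
        exact hL0.le
      · exact Real.log_le_log (by exact_mod_cast h) (by exact_mod_cast hK2X)
    apply mul_le_mul_of_nonneg_right _ hK0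
    nlinarith
  -- the parameters
  set E : ℝ := (X : ℝ) ^ (η / (8 * m)) with hE_def
  have hE1' : 1 ≤ E := Real.one_le_rpow hX1r hηm.le
  have hE0 : 0 < E := by linarith
  have hLE : L ^ C4 ≤ E := by
    have h1 : L ^ C4 ≤ L ^ (C4 + 1 + A) := pow_le_pow_right₀ hL1 (by omega)
    have h2 : 0 < L ^ (C4 + 1 + A) := by positivity
    linarith
  rcases le_or_gt (P * E) H with hcase | hcase
  · -- small `P`
    have h0 := lev0 (fun t => ‖Pl P d l t‖) (fun t => ‖Kl b K1 K2 a t‖ ^ 2) (PInt_contP P d l) (PInt_contK b K1 K2 a)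
      (fun t => norm_nonneg _) (fun t => by positivity) T (P / L ^ (A + 2)) ((2 * T + 4 * K2 * L) * K2) R hRm hRT hVR htot
    exact h0.trans (PInt_t0 L X P K2 H T E A C4 hL4 hX0 hP0 hK0 hT0.le hE0 hKr hTH hcase hLE)
  set F : ℝ := (X : ℝ) ^ (η / 2) with hF_def
  have hF0 : 0 < F := Real.rpow_pos_of_pos hX0 _
  have hF2 : F ^ 2 = (X : ℝ) ^ η := by
    rw [hF_def, ← Real.rpow_natCast, ← Real.rpow_mul hX0.le]
    congr 1
    push_cast
    ring
  have hE2m : E ^ (2 * m) = (X : ℝ) ^ (η / 4) := by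
    rw [hE_def, ← Real.rpow_natCast, ← Real.rpow_mul hX0.le]
    congr 1
    push_cast
    field_simp
    norm_num
  have hEF : cM m * C * L ^ (2 * C4 + 3 + A) * E ^ (2 * m) ≤ F := by
    rw [hE2m]
    have h1 : F = (X : ℝ) ^ (η / 4) * (X : ℝ) ^ (η / 4) := by
      rw [hF_def, ← Real.rpow_add hX0]
      congr 1
      ring
    rw [h1]
    exact mul_le_mul_of_nonneg_right hE1 (Real.rpow_nonneg hX0.le _)
  have hx0 : 0 < Real.sqrt X := Real.sqrt_pos.2 hX0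
  have hs0 : 0 < Real.sqrt H := Real.sqrt_pos.2 hH0
  have hxX : (X : ℝ) = Real.sqrt X ^ 2 := (Real.sq_sqrt hX0.le).symm
  have hsH : H = Real.sqrt H ^ 2 := (Real.sq_sqrt hH0.le).symm
  have hPF : (P : ℝ) ^ (m + 1) * F ≤ Real.sqrt X * Real.sqrt H ^ (2 * m + 1) := by
    have h1 : ((P : ℝ) ^ (m + 1) * F) ^ 2 ≤ (Real.sqrt X * Real.sqrt H ^ (2 * m + 1)) ^ 2 := by
      have e1 : ((P : ℝ) ^ (m + 1) * F) ^ 2 = (P : ℝ) ^ (2 * m + 2) * (X : ℝ) ^ η := by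
        rw [mul_pow, hF2, ← pow_mul]
        congr 2
        ring
      have e2 : (Real.sqrt X * Real.sqrt H ^ (2 * m + 1)) ^ 2 = X * H ^ (2 * m + 1) := by
        rw [mul_pow, ← hxX, ← pow_mul, mul_comm (2 * m + 1) 2, pow_mul, ← hsH]
      rw [e1, e2]
      exact hSP
    exact le_of_sq_le_sq h1 (by positivity)
  have hxF : Real.sqrt X * F ≤ Real.sqrt H ^ (2 * m + 3) := by
    have h1 : (Real.sqrt X * F) ^ 2 ≤ (Real.sqrt H ^ (2 * m + 3)) ^ 2 := by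
      have e2 : (Real.sqrt H ^ (2 * m + 3)) ^ 2 = H ^ (2 * m + 3) := by
        rw [← pow_mul, mul_comm (2 * m + 3) 2, pow_mul, ← hsH]
      rw [e2, mul_pow, ← hxX, hF2]
      exact hSH
    exact le_of_sq_le_sq h1 (by positivity)
  set lg : ℝ := 1 + Real.log ((2 * (P : ℝ)) ^ (m + 1)) with hlg_def
  have hlog0 : 0 ≤ Real.log ((2 * (P : ℝ)) ^ (m + 1)) := by
    apply Real.log_nonneg
    exact one_le_pow₀ (by linarith)
  have hlg0 : 0 ≤ lg := by
    rw [hlg_def]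
    linarith
  have hlg : lg ≤ (2 * m + 3) * L := by
    have h1 : Real.log (2 * (P : ℝ)) ≤ 2 * L := by
      have h2 : Real.log (2 * (P : ℝ)) ≤ Real.log (X * X) := by
        apply Real.log_le_log (by positivity)
        have h3 : (P : ℝ) ≤ X := by exact_mod_cast hPX
        nlinarith
      rw [Real.log_mul hX0.ne' hX0.ne'] at h2
      linarith
    rw [hlg_def, Real.log_pow]
    push_cast
    have h3 : ((m : ℝ) + 1) * Real.log (2 * (P : ℝ)) ≤ (m + 1) * (2 * L) := mul_le_mul_of_nonneg_left h1 (by positivity)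
    nlinarith
  have hr1 : 1 ≤ (P / L ^ (A + 2)) ^ 2 / ((P : ℝ) ^ 2 / (E * (1 + P / H))) := by
    have e1 : (P / L ^ (A + 2)) ^ 2 / ((P : ℝ) ^ 2 / (E * (1 + P / H))) = E * (1 + P / H) / L ^ (2 * (A + 2)) := by
      rw [div_pow, ← pow_mul, mul_comm (A + 2) 2]
      field_simp
    rw [e1, le_div_iff₀ (by positivity), one_mul]
    rw [one_mul] at hE2
    have h3 : 0 ≤ (P : ℝ) / H := by positivity
    nlinarith
  obtain ⟨J, hJ1, hJ2⟩ := PInt_J _ hr1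
  set V0 : ℝ := P / L ^ (A + 2) with hV0_def
  have hV00 : 0 < V0 := by positivity
  set V1 : ℝ := (P : ℝ) ^ 2 / (E * (1 + P / H)) with hV1_def
  have hV10 : 0 < V1 := by positivity
  -- level sets
  have hlev := lev (fun t => ‖Pl P d l t‖) (fun t => ‖Kl b K1 K2 a t‖ ^ 2) (PInt_contP P d l) (PInt_contK b K1 K2 a)
    (fun t => norm_nonneg _) (fun t => by positivity) m hm T V0
    ((2 * T + 2 * (2 * (P : ℝ)) ^ (m + 1) * lg) * ((m + 1).factorial * (P : ℝ) ^ (m + 1)))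
    (C * L ^ 2 * (K2 : ℝ) ^ 2) (C * L ^ 2 * Real.sqrt T * K2) ((2 * T + 4 * K2 * L) * K2) J R hRm hRT hV00
    (by positivity) (by positivity) (by positivity) hVR
    (fun B' V hB hBR hV hBV => vol_le P d l (m + 1) V T (by
      have : (1 : ℝ) ≤ P := by linarith
      exact_mod_cast this) hV hT0.le B' hB (hBR.trans hRT) hBV)
    (fun B' hB hBR => by
      refine (hdual X K1 K2 b a T B' g8 hK2X hT hTX hB (hBR.trans hRT) hb).trans (le_of_eq ?_)
      ring)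
    htot
  refine hlev.trans ?_
  -- the three terms
  have ht1 := PInt_t1 C L X P K2 A hC1 hLC hX0 hP0.le hK0 hKr
  have ht3 := PInt_t3 L X P K2 H T E A C4 hL1 hX0 hP0 hK0 hH0 hT0.le hE0 hKr hTH hE3
  have ht2 := PInt_t2 C L X P K2 H T E F (Real.sqrt X) (Real.sqrt H) lg A C4 m hC1 hL1 hP0 hT0.le hE1' hF0 hx0 hs0
    hxX hsH hKr hTH hcase.le hPF hxF hlg0 hlg hEF
  have s1 : 4 ^ (m + 1) * (C * L ^ 2 * Real.sqrt T * K2 * ((2 * T + 2 * (2 * (P : ℝ)) ^ (m + 1) * lg) * ((m + 1).factorial * (P : ℝ) ^ (m + 1))))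
        * (4 ^ J) ^ m / V0 ^ (2 * m)
      ≤ 4 ^ (2 * m + 1) * (C * L ^ 2 * Real.sqrt T * K2) * ((2 * T + 2 * (2 * (P : ℝ)) ^ (m + 1) * lg) * ((m + 1).factorial * (P : ℝ) ^ (m + 1)))
        / V1 ^ m := by
    have h2 : ((4 : ℝ) ^ J) ^ m / V0 ^ (2 * m) ≤ 4 ^ m / V1 ^ m := by
      rw [div_le_div_iff₀ (by positivity) (by positivity)]
      have h3 : (4 : ℝ) ^ J * V1 ≤ 4 * V0 ^ 2 := by
        calc (4 : ℝ) ^ J * V1 ≤ 4 * (V0 ^ 2 / V1) * V1 := mul_le_mul_of_nonneg_right hJ2 hV10.le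
          _ = 4 * V0 ^ 2 := by field_simp
      calc ((4 : ℝ) ^ J) ^ m * V1 ^ m = ((4 : ℝ) ^ J * V1) ^ m := (mul_pow _ _ _).symm
        _ ≤ (4 * V0 ^ 2) ^ m := pow_le_pow_left₀ (by positivity) h3 m
        _ = 4 ^ m * V0 ^ (2 * m) := by rw [mul_pow, ← pow_mul]
    have hA0 : 0 ≤ 4 ^ (m + 1) * (C * L ^ 2 * Real.sqrt T * K2 * ((2 * T + 2 * (2 * (P : ℝ)) ^ (m + 1) * lg) * ((m + 1).factorial * (P : ℝ) ^ (m + 1)))) := by
      positivity
    calc 4 ^ (m + 1) * (C * L ^ 2 * Real.sqrt T * K2 * ((2 * T + 2 * (2 * (P : ℝ)) ^ (m + 1) * lg) * ((m + 1).factorial * (P : ℝ) ^ (m + 1))))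
        * (4 ^ J) ^ m / V0 ^ (2 * m)
        = 4 ^ (m + 1) * (C * L ^ 2 * Real.sqrt T * K2 * ((2 * T + 2 * (2 * (P : ℝ)) ^ (m + 1) * lg) * ((m + 1).factorial * (P : ℝ) ^ (m + 1))))
        * ((4 ^ J) ^ m / V0 ^ (2 * m)) := by ring
      _ ≤ 4 ^ (m + 1) * (C * L ^ 2 * Real.sqrt T * K2 * ((2 * T + 2 * (2 * (P : ℝ)) ^ (m + 1) * lg) * ((m + 1).factorial * (P : ℝ) ^ (m + 1))))
        * (4 ^ m / V1 ^ m) := mul_le_mul_of_nonneg_left h2 hA0
      _ = _ := by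
        rw [show 2 * m + 1 = (m + 1) + m by ring, pow_add]
        ring
  have s3 : V0 ^ 2 / 4 ^ J * ((2 * T + 4 * K2 * L) * K2) ≤ V1 * ((2 * T + 4 * K2 * L) * K2) := by
    have h1 : V0 ^ 2 / 4 ^ J ≤ V1 := by
      rw [div_le_iff₀ (by positivity)]
      have h2 := mul_le_mul_of_nonneg_right hJ1 hV10.le
      rw [div_mul_cancel₀ _ hV10.ne'] at h2
      linarith
    exact mul_le_mul_of_nonneg_right h1 (by positivity)
  have hsum : X ^ 2 / (3 * L ^ A) + X ^ 2 / (3 * L ^ A) + X ^ 2 / (3 * L ^ A) = (X : ℝ) ^ 2 / L ^ A := by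
    field_simp
    norm_num
  rw [← hsum]
  exact add_le_add (add_le_add ht1 (s1.trans ht2)) (s3.trans ht3)

end Pool.Agent.H31.EK
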