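import Pool.Agent.H31.EQ.Defs
import Pool.Agent.H53.MID.Fac
import Pool.Agent.H53.MID.Mvt

/-!
# EK Vol: the large values of the prime polynomial, by the mean value theorem for its `k`-th power

`Pl P d l t = ∑_{p ∈ pb P, p ≡ l (d)} ee(-t log p)`; `Pl^k = ∑_{m ≤ (2P)^k} c_k(m) ee(-t log m)`, `c_k(m) = #{(p_1, .., p_k) : p_1 .. p_k = m} ≤ k!`
(`c_(k+1)(m) = ∑_{p ∣ m} c_k(m/p)`, and `m` has at most `k + 1` prime factors if this is not `0`), `∑ c_k(m)² ≤ k! ∑ c_k(m) ≤ k! P^k`.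
`Pool.Agent.H53.MID.mvt` (`τ = 0`, `X = (2P)^k`), Chebyshev: `V^(2k) vol(B) ≤ ∫_B |Pl|^(2k)`.
-/

set_option autoImplicit false

namespace Pool.Agent.H31.EK

open Finset MeasureTheory
open Pool.Agent.H91.PK (ee)
open Pool.Agent.H35.W (pb)
open Pool.Agent.H53.MID (Fp Pl Kl)

private theorem Vol_ee_add (a b : ℝ) : ee (a + b) = ee a * ee b := by
  unfold ee
  rw [← Complex.exp_add]
  congr 1
  push_cast
  ring

private theorem Vol_ee_cont : Continuous ee := by
  unfold ee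
  fun_prop

/-- the primes of the box in the class -/
noncomputable def VS (P d l : ℕ) : Finset ℕ := (pb P).filter (fun p => p % d = l % d)

/-- the number of `k`-tuples with product `m` -/
noncomputable def ck (P d l : ℕ) : ℕ → ℕ → ℕ
  | 0, m => if m = 1 then 1 else 0
  | k + 1, m => ∑ p ∈ (VS P d l).filter (fun p => p ∣ m), ck P d l k (m / p)

private theorem Vol_mem (P d l p : ℕ) (hp : p ∈ VS P d l) : p.Prime ∧ P < p ∧ p ≤ 2 * P := by
  simp only [VS, pb, mem_filter, mem_Ioc] at hp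
  exact ⟨hp.1.2, hp.1.1.1, hp.1.1.2⟩

private theorem Vol_card (P d l : ℕ) : (VS P d l).card ≤ P := by
  have h4 : VS P d l ⊆ Ioc P (2 * P) := by
    intro p hp
    have h5 := Vol_mem P d l p hp
    rw [mem_Ioc]
    exact h5.2
  refine (Finset.card_le_card h4).trans ?_
  rw [Nat.card_Ioc]
  omega

private theorem Vol_supp (P d l : ℕ) : ∀ k m : ℕ, ck P d l k m ≠ 0 → 1 ≤ m ∧ m ≤ (2 * P) ^ k ∧
    ArithmeticFunction.cardFactors m = k := by
  intro k
  induction k with
  | zero =>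
    intro m hm
    simp only [ck, ne_eq, ite_eq_right_iff, one_ne_zero, imp_false, not_not] at hm
    subst hm
    simp
  | succ k ih =>
    intro m hm
    rw [ck] at hm
    obtain ⟨p, hp, hp0⟩ := Finset.exists_ne_zero_of_sum_ne_zero hm
    rw [mem_filter] at hp
    obtain ⟨h1, h2, h3⟩ := ih (m / p) hp0
    obtain ⟨q1, _, q3⟩ := Vol_mem P d l p hp.1
    have hmp : m = p * (m / p) := (Nat.mul_div_cancel' hp.2).symm
    have hm0 : 1 ≤ m := by
      rw [hmp]
      exact Nat.mul_pos q1.pos h1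
    refine ⟨hm0, ?_, ?_⟩
    · calc m = p * (m / p) := hmp
        _ ≤ (2 * P) * (2 * P) ^ k := Nat.mul_le_mul q3 h2
        _ = (2 * P) ^ (k + 1) := by ring
    · rw [hmp, ArithmeticFunction.cardFactors_mul q1.ne_zero (by omega), h3,
        ArithmeticFunction.cardFactors_apply_prime q1]
      ring

private theorem Vol_le (P d l : ℕ) : ∀ k m : ℕ, ck P d l k m ≤ k.factorial := by
  intro k
  induction k with
  | zero =>
    intro m
    simp only [ck, Nat.factorial_zero]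
    split_ifs <;> omega
  | succ k ih =>
    intro m
    by_cases h0 : ck P d l (k + 1) m = 0
    · rw [h0]
      exact Nat.zero_le _
    · obtain ⟨h1, _, h3⟩ := Vol_supp P d l (k + 1) m h0
      have hcard : ((VS P d l).filter (fun p => p ∣ m)).card ≤ k + 1 := by
        have hsub : (VS P d l).filter (fun p => p ∣ m) ⊆ m.primeFactorsList.toFinset := by
          intro p hp
          rw [mem_filter] at hp
          rw [List.mem_toFinset, Nat.mem_primeFactorsList (by omega)]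
          exact ⟨(Vol_mem P d l p hp.1).1, hp.2⟩
        refine (Finset.card_le_card hsub).trans ?_
        refine (List.toFinset_card_le _).trans ?_
        rw [← h3, ArithmeticFunction.cardFactors_apply]
      rw [ck, Nat.factorial_succ]
      refine (Finset.sum_le_card_nsmul _ _ k.factorial fun p _ => ih (m / p)).trans ?_
      rw [smul_eq_mul]
      exact Nat.mul_le_mul_right _ hcard

/-- the recursion for sums -/
private theorem Vol_sum (P d l k : ℕ) (F : ℕ → ℂ) :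
    ∑ m ∈ Icc 1 ((2 * P) ^ (k + 1)), (ck P d l (k + 1) m : ℂ) * F m =
      ∑ p ∈ VS P d l, ∑ n ∈ Icc 1 ((2 * P) ^ k), (ck P d l k n : ℂ) * F (p * n) := by
  have h1 : ∀ m ∈ Icc 1 ((2 * P) ^ (k + 1)), (ck P d l (k + 1) m : ℂ) * F m =
      ∑ p ∈ VS P d l, if p ∣ m then (ck P d l k (m / p) : ℂ) * F m else 0 := by
    intro m _
    rw [ck, ← Finset.sum_filter]
    push_cast
    rw [Finset.sum_mul]
  rw [Finset.sum_congr rfl h1, Finset.sum_comm]
  refine Finset.sum_congr rfl fun p hp => ?_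
  obtain ⟨q1, _, q3⟩ := Vol_mem P d l p hp
  rw [← Finset.sum_filter]
  symm
  refine Finset.sum_of_injOn (fun n => p * n) ?_ ?_ ?_ ?_
  · intro a _ b _ hab
    exact Nat.eq_of_mul_eq_mul_left q1.pos hab
  · intro n hn
    rw [Finset.mem_coe, mem_Icc] at hn
    rw [Finset.mem_coe, mem_filter, mem_Icc]
    refine ⟨⟨Nat.mul_pos q1.pos hn.1, ?_⟩, Dvd.intro _ rfl⟩
    calc p * n ≤ (2 * P) * (2 * P) ^ k := Nat.mul_le_mul q3 hn.2
      _ = (2 * P) ^ (k + 1) := by ring
  · intro m hm hm'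
    rw [mem_filter, mem_Icc] at hm
    have h2 : ck P d l k (m / p) = 0 := by
      by_contra h0
      obtain ⟨h3, h4, _⟩ := Vol_supp P d l k (m / p) h0
      apply hm'
      refine ⟨m / p, ?_, Nat.mul_div_cancel' hm.2⟩
      rw [Finset.mem_coe, mem_Icc]
      exact ⟨h3, h4⟩
    rw [h2, Nat.cast_zero, zero_mul]
  · intro n _
    show (ck P d l k n : ℂ) * F (p * n) = (ck P d l k (p * n / p) : ℂ) * F (p * n)
    rw [Nat.mul_div_cancel_left n q1.pos]

private theorem Vol_pow (P d l : ℕ) (t : ℝ) : ∀ k : ℕ,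
    Pl P d l t ^ k = ∑ m ∈ Icc 1 ((2 * P) ^ k), (ck P d l k m : ℂ) * ee (-((0 + t) * Real.log m)) := by
  intro k
  induction k with
  | zero =>
    rw [pow_zero, pow_zero, Icc_self, sum_singleton]
    simp [ck, ee]
  | succ k ih =>
    rw [Vol_sum P d l k, pow_succ, ih, mul_comm]
    unfold Pl
    rw [Finset.sum_mul]
    refine Finset.sum_congr rfl fun p hp => ?_
    obtain ⟨q1, _, _⟩ := Vol_mem P d l p hp
    rw [Finset.mul_sum]
    refine Finset.sum_congr rfl fun n hn => ?_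
    rw [mem_Icc] at hn
    have h1 : ee (-((0 + t) * Real.log ((p * n : ℕ) : ℝ))) = ee (-(t * Real.log p)) * ee (-((0 + t) * Real.log n)) := by
      rw [← Vol_ee_add, Nat.cast_mul, Real.log_mul (by exact_mod_cast q1.ne_zero)
        (by exact_mod_cast (by omega : n ≠ 0))]
      congr 1
      ring
    rw [h1]
    ring

private theorem Vol_cnt (P d l : ℕ) : ∀ k : ℕ,
    ∑ m ∈ Icc 1 ((2 * P) ^ k), (ck P d l k m : ℂ) = ((VS P d l).card : ℂ) ^ k := by
  intro k
  induction k with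
  | zero =>
    rw [pow_zero, pow_zero, Icc_self, sum_singleton]
    simp [ck]
  | succ k ih =>
    have h := Vol_sum P d l k (fun _ => 1)
    simp only [mul_one] at h
    rw [h, ih, Finset.sum_const, nsmul_eq_mul, pow_succ, mul_comm]

private theorem Vol_csum (P d l k : ℕ) : ∑ m ∈ Icc 1 ((2 * P) ^ k), ‖(ck P d l k m : ℂ)‖ ^ 2 ≤
    k.factorial * (P : ℝ) ^ k := by
  have h1 : ∀ m ∈ Icc 1 ((2 * P) ^ k), ‖(ck P d l k m : ℂ)‖ ^ 2 ≤ (k.factorial : ℝ) * (ck P d l k m : ℝ) := by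
    intro m _
    rw [Complex.norm_natCast, sq]
    have h2 : (ck P d l k m : ℝ) ≤ k.factorial := by exact_mod_cast Vol_le P d l k m
    exact mul_le_mul_of_nonneg_right h2 (Nat.cast_nonneg _)
  refine (Finset.sum_le_sum h1).trans ?_
  rw [← Finset.mul_sum]
  have h2 : ∑ m ∈ Icc 1 ((2 * P) ^ k), (ck P d l k m : ℝ) = ((VS P d l).card : ℝ) ^ k := by
    have h3 := Vol_cnt P d l k
    exact_mod_cast h3
  rw [h2]
  refine mul_le_mul_of_nonneg_left ?_ (Nat.cast_nonneg _)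
  exact pow_le_pow_left₀ (Nat.cast_nonneg _) (by exact_mod_cast Vol_card P d l) k

private theorem Vol_cont (P d l k : ℕ) : Continuous (fun t => ‖Pl P d l t‖ ^ (2 * k)) := by
  have h1 : Continuous (fun t => Pl P d l t) := by
    unfold Pl
    refine continuous_finsetSum _ (fun p _ => ?_)
    exact Vol_ee_cont.comp (by fun_prop)
  exact h1.norm.pow (2 * k)

theorem vol_le (P d l k : ℕ) (V T : ℝ) (hP : 1 ≤ P) (hV : 0 < V) (hT : 0 ≤ T) (B : Set ℝ) (hB : MeasurableSet B)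
    (hBT : B ⊆ Set.Icc (-T) T) (hBV : ∀ t ∈ B, V ≤ ‖Pl P d l t‖) :
    volume.real B ≤ (2 * T + 2 * (2 * (P : ℝ)) ^ k * (1 + Real.log ((2 * (P : ℝ)) ^ k))) * (k.factorial * (P : ℝ) ^ k) / V ^ (2 * k) := by
  have hX : 1 ≤ (2 * P) ^ k := Nat.one_le_pow _ _ (by omega)
  have hmv := Pool.Agent.H53.MID.mvt (fun m => (ck P d l k m : ℂ)) ((2 * P) ^ k) T 0 hX hT
  have hI : ∫ t in Set.Icc (-T) T, ‖Pl P d l t‖ ^ (2 * k) =
      ∫ t in Set.Icc (-T) T, ‖∑ m ∈ Icc 1 ((2 * P) ^ k), (ck P d l k m : ℂ) * ee (-((0 + t) * Real.log m))‖ ^ 2 := by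
    refine integral_congr_ae (Filter.Eventually.of_forall (fun t => ?_))
    show ‖Pl P d l t‖ ^ (2 * k) = ‖∑ m ∈ Icc 1 ((2 * P) ^ k), (ck P d l k m : ℂ) * ee (-((0 + t) * Real.log m))‖ ^ 2
    rw [← Vol_pow P d l t, norm_pow, ← pow_mul, mul_comm]
  have hint : IntegrableOn (fun t => ‖Pl P d l t‖ ^ (2 * k)) (Set.Icc (-T) T) :=
    (Vol_cont P d l k).integrableOn_Icc
  have hBfin : volume B ≠ ⊤ := by
    refine ne_top_of_le_ne_top ?_ (measure_mono hBT)
    exact (isCompact_Icc.measure_lt_top).ne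
  have h1 : volume.real B * V ^ (2 * k) ≤ ∫ t in B, ‖Pl P d l t‖ ^ (2 * k) := by
    have h2 : ∫ _t in B, V ^ (2 * k) = volume.real B * V ^ (2 * k) := by
      rw [setIntegral_const, smul_eq_mul]
    rw [← h2]
    refine setIntegral_mono_on ?_ (hint.mono_set hBT) hB (fun t ht => ?_)
    · exact integrableOn_const hBfin
    · exact pow_le_pow_left₀ hV.le (hBV t ht) (2 * k)
  have h3 : ∫ t in B, ‖Pl P d l t‖ ^ (2 * k) ≤ ∫ t in Set.Icc (-T) T, ‖Pl P d l t‖ ^ (2 * k) := by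
    refine setIntegral_mono_set hint ?_ (Filter.Eventually.of_forall hBT)
    exact Filter.Eventually.of_forall (fun t => by positivity)
  have hP1 : (1 : ℝ) ≤ P := by exact_mod_cast hP
  have hlog : 0 ≤ Real.log ((2 * (P : ℝ)) ^ k) := by
    apply Real.log_nonneg
    exact one_le_pow₀ (by linarith)
  have h4 : (2 * T + 2 * (((2 * P) ^ k : ℕ) : ℝ) * (1 + Real.log (((2 * P) ^ k : ℕ) : ℝ))) *
      ∑ m ∈ Icc 1 ((2 * P) ^ k), ‖(ck P d l k m : ℂ)‖ ^ 2 ≤
      (2 * T + 2 * (2 * (P : ℝ)) ^ k * (1 + Real.log ((2 * (P : ℝ)) ^ k))) * (k.factorial * (P : ℝ) ^ k) := by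
    have h5 : (((2 * P) ^ k : ℕ) : ℝ) = (2 * (P : ℝ)) ^ k := by
      push_cast
      ring
    rw [h5]
    exact mul_le_mul_of_nonneg_left (Vol_csum P d l k) (by positivity)
  rw [le_div_iff₀ (by positivity)]
  rw [← hI] at hmv
  linarith

end Pool.Agent.H31.EK
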